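import Pool.Agent.H64.SW.Targets

/-!
# Basic facts (MP_bd4439_gt, walls)
-/

namespace Pool.Agent.H64.SW

open Set Filter Topology Module

variable {E : Type*} [NormedAddCommGroup E] [InnerProductSpace ℝ E]

/-! ## Cones -/

theorem P_smul {K : Set E} {u : E} (hu : u ∈ P K) {c : ℝ} (hc : 0 < c) : c • u ∈ P K := by
  obtain ⟨h0, t, ht, htu⟩ := hu
  refine ⟨smul_ne_zero hc.ne' h0, t / c, div_pos ht hc, ?_⟩
  rw [smul_smul, div_mul_cancel₀ _ hc.ne']
  exact htu

theorem P_smul_iff {K : Set E} {u : E} {c : ℝ} (hc : 0 < c) : c • u ∈ P K ↔ u ∈ P K := by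
  refine ⟨fun h => ?_, fun h => P_smul h hc⟩
  have := P_smul h (inv_pos.2 hc)
  rwa [smul_smul, inv_mul_cancel₀ hc.ne', one_smul] at this

theorem P_ne_zero {K : Set E} {u : E} (hu : u ∈ P K) : u ≠ 0 := hu.1

theorem zero_notMem_P {K : Set E} : (0 : E) ∉ P K := fun h => h.1 rfl

theorem zero_notMem_Q {K : Set E} : (0 : E) ∉ Q K := fun h => h.1 rfl

theorem mem_P_of_smul_mem {K : Set E} {u : E} {t : ℝ} (hu : u ≠ 0) (ht : 0 < t) (h : t • u ∈ K) :
    u ∈ P K := ⟨hu, t, ht, h⟩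

theorem mem_P_of_mem {K : Set E} {u : E} (hu : u ≠ 0) (h : u ∈ K) : u ∈ P K :=
  ⟨hu, 1, one_pos, by rwa [one_smul]⟩

theorem Q_smul {K : Set E} {u : E} (hu : u ∈ Q K) {c : ℝ} (hc : 0 < c) : c • u ∈ Q K :=
  ⟨smul_ne_zero hc.ne' hu.1, fun h => hu.2 ((P_smul_iff hc).1 h)⟩

theorem Q_smul_iff {K : Set E} {u : E} {c : ℝ} (hc : 0 < c) : c • u ∈ Q K ↔ u ∈ Q K := by
  refine ⟨fun h => ?_, fun h => Q_smul h hc⟩
  have := Q_smul h (inv_pos.2 hc)
  rwa [smul_smul, inv_mul_cancel₀ hc.ne', one_smul] at this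

theorem mem_P_or_mem_Q (K : Set E) {u : E} (hu : u ≠ 0) : u ∈ P K ∨ u ∈ Q K := by
  by_cases h : u ∈ P K
  · exact Or.inl h
  · exact Or.inr ⟨hu, h⟩

theorem compl_P (K : Set E) : (P K)ᶜ = insert 0 (Q K) := by
  ext u
  simp only [mem_compl_iff, mem_insert_iff]
  constructor
  · intro h
    by_cases h0 : u = 0
    · exact Or.inl h0
    · exact Or.inr ⟨h0, h⟩
  · rintro (rfl | h)
    · exact zero_notMem_P
    · exact h.2

/-- General scaling of closures and interiors of cones. -/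
theorem closure_smul_mem {D : Set E} (hD : ∀ u ∈ D, ∀ c : ℝ, 0 < c → c • u ∈ D) {u : E}
    (hu : u ∈ closure D) {c : ℝ} (hc : 0 < c) : c • u ∈ closure D :=
  map_mem_closure (continuous_const_smul c) hu (fun v hv => hD v hv c hc)

theorem interior_smul_mem {D : Set E} (hD : ∀ u ∈ D, ∀ c : ℝ, 0 < c → c • u ∈ D) {u : E}
    (hu : u ∈ interior D) {c : ℝ} (hc : 0 < c) : c • u ∈ interior D := by
  rw [mem_interior] at hu ⊢
  obtain ⟨t, htD, hto, hut⟩ := hu
  refine ⟨(fun v : E => c⁻¹ • v) ⁻¹' t, ?_, hto.preimage (continuous_const_smul _), ?_⟩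
  · intro v hv
    have h1 := hD _ (htD hv) c hc
    rwa [smul_smul, mul_inv_cancel₀ hc.ne', one_smul] at h1
  · rwa [mem_preimage, smul_smul, inv_mul_cancel₀ hc.ne', one_smul]

theorem closure_Q_smul {K : Set E} {u : E} (hu : u ∈ closure (Q K)) {c : ℝ} (hc : 0 < c) :
    c • u ∈ closure (Q K) := closure_smul_mem (fun _ h _ hc => Q_smul h hc) hu hc

theorem interior_Q_smul {K : Set E} {u : E} (hu : u ∈ interior (Q K)) {c : ℝ} (hc : 0 < c) :
    c • u ∈ interior (Q K) := interior_smul_mem (fun _ h _ hc => Q_smul h hc) hu hc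

theorem interior_P_smul {K : Set E} {u : E} (hu : u ∈ interior (P K)) {c : ℝ} (hc : 0 < c) :
    c • u ∈ interior (P K) := interior_smul_mem (fun _ h _ hc => P_smul h hc) hu hc

theorem C_smul {K L : Set E} {u : E} (hu : u ∈ C K L) {c : ℝ} (hc : 0 < c) : c • u ∈ C K L := by
  refine ⟨P_smul hu.1 hc, fun h => hu.2.1 ((P_smul_iff hc).1 h), ?_⟩
  rw [← smul_neg]
  exact P_smul hu.2.2 hc

theorem closure_C_smul {K L : Set E} {u : E} (hu : u ∈ closure (C K L)) {c : ℝ} (hc : 0 < c) :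
    c • u ∈ closure (C K L) := closure_smul_mem (fun _ h _ hc => C_smul h hc) hu hc

theorem interior_C_smul {K L : Set E} {u : E} (hu : u ∈ interior (C K L)) {c : ℝ} (hc : 0 < c) :
    c • u ∈ interior (C K L) := interior_smul_mem (fun _ h _ hc => C_smul h hc) hu hc

theorem C_subset_Q {K L : Set E} : C K L ⊆ Q K := fun _ hu => ⟨hu.1.1, hu.2.1⟩

theorem zero_mem_closure_Q {K : Set E} (h : (Q K).Nonempty) : (0 : E) ∈ closure (Q K) := by
  obtain ⟨u, hu⟩ := h
  rw [mem_closure_iff_seq_limit]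
  refine ⟨fun n : ℕ => (1 / ((n : ℝ) + 1)) • u, fun n => Q_smul hu (by positivity), ?_⟩
  have h1 : Tendsto (fun n : ℕ => 1 / ((n : ℝ) + 1)) atTop (𝓝 0) :=
    tendsto_one_div_add_atTop_nhds_zero_nat
  simpa using h1.smul_const u

theorem mem_closure_Q_of_notMem_interior_P {K : Set E} {u : E} (hu : u ≠ 0)
    (h : u ∉ interior (P K)) : u ∈ closure (Q K) := by
  have h1 : u ∈ closure ((P K)ᶜ) := by
    rw [closure_compl]; exact h
  rw [compl_P, ← singleton_union, closure_union, closure_singleton] at h1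
  rcases h1 with h1 | h1
  · exact absurd (mem_singleton_iff.1 h1) hu
  · exact h1

/-! ## The radial function -/

theorem bddAbove_rad {K : Set E} (hK : IsCompact K) {u : E} (hu : u ≠ 0) :
    BddAbove {a : ℝ | 0 ≤ a ∧ a • u ∈ K} := by
  obtain ⟨M, hM⟩ := hK.isBounded.exists_norm_le
  refine ⟨M / ‖u‖, fun a ha => ?_⟩
  rw [le_div_iff₀ (norm_pos_iff.2 hu)]
  have := hM _ ha.2
  rwa [norm_smul, Real.norm_eq_abs, abs_of_nonneg ha.1] at this

theorem rad_nonneg (K : Set E) (u : E) : 0 ≤ rad K u :=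
  Real.sSup_nonneg (fun _ ha => ha.1)

theorem smul_mem_iff_le_rad {K : Set E} (hK : StarB K) {u : E} (hu : u ≠ 0) {t : ℝ} (ht : 0 ≤ t) :
    t • u ∈ K ↔ t ≤ rad K u := by
  constructor
  · intro h
    exact le_csSup (bddAbove_rad hK.compact hu) ⟨ht, h⟩
  · intro h
    -- the supremum is attained
    have hne : {a : ℝ | 0 ≤ a ∧ a • u ∈ K}.Nonempty := ⟨0, le_refl _, by simpa using hK.zero⟩
    have hcl : IsClosed {a : ℝ | 0 ≤ a ∧ a • u ∈ K} := by
      apply IsClosed.inter isClosed_Ici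
      exact hK.compact.isClosed.preimage (continuous_id.smul continuous_const)
    have hmem := hcl.csSup_mem hne (bddAbove_rad hK.compact hu)
    rcases eq_or_lt_of_le (rad_nonneg K u) with h0 | h0
    · have : t = 0 := le_antisymm (by rw [h0]; exact h) ht
      rw [this, zero_smul]; exact hK.zero
    · have h1 := hK.star _ hmem.2 (t / rad K u) (by positivity) ((div_le_one h0).2 h)
      rw [smul_smul] at h1
      have : t / rad K u * rad K u = t := div_mul_cancel₀ _ h0.ne'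
      change (t / rad K u * rad K u) • u ∈ K at h1
      rwa [this] at h1

theorem mem_P_iff {K : Set E} (hK : StarB K) {u : E} : u ∈ P K ↔ u ≠ 0 ∧ 0 < rad K u := by
  constructor
  · rintro ⟨h0, t, ht, h⟩
    exact ⟨h0, lt_of_lt_of_le ht ((smul_mem_iff_le_rad hK h0 ht.le).1 h)⟩
  · rintro ⟨h0, h⟩
    exact ⟨h0, _, h, (smul_mem_iff_le_rad hK h0 h.le).2 le_rfl⟩

theorem rad_pos {K : Set E} (hK : StarB K) {u : E} (hu : u ∈ P K) : 0 < rad K u :=
  ((mem_P_iff hK).1 hu).2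

theorem rad_smul_mem {K : Set E} (hK : StarB K) {u : E} (hu : u ≠ 0) : rad K u • u ∈ K :=
  (smul_mem_iff_le_rad hK hu (rad_nonneg _ _)).2 le_rfl

theorem rad_eq_zero {K : Set E} (hK : StarB K) {u : E} (hu : u ≠ 0) (h : u ∉ P K) :
    rad K u = 0 := by
  by_contra h1
  exact h ((mem_P_iff hK).2 ⟨hu, lt_of_le_of_ne (rad_nonneg _ _) (Ne.symm h1)⟩)

theorem rad_smul {K : Set E} (u : E) {c : ℝ} (hc : 0 < c) : rad K (c • u) = rad K u / c := by
  have hset : {a : ℝ | 0 ≤ a ∧ a • (c • u) ∈ K} =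
      (fun b : ℝ => c⁻¹ • b) '' {a : ℝ | 0 ≤ a ∧ a • u ∈ K} := by
    ext a
    simp only [mem_ofPred_eq, mem_image, smul_smul, smul_eq_mul]
    constructor
    · rintro ⟨h1, h2⟩
      exact ⟨a * c, ⟨by positivity, h2⟩, by field_simp⟩
    · rintro ⟨b, ⟨h1, h2⟩, rfl⟩
      refine ⟨by positivity, ?_⟩
      have : c⁻¹ * b * c = b := by field_simp
      rwa [this]
  unfold rad
  have h2 := Real.sSup_smul_of_nonneg (inv_nonneg.2 hc.le) {a : ℝ | 0 ≤ a ∧ a • u ∈ K}
  rw [← Set.image_smul] at h2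
  rw [hset, h2, smul_eq_mul]
  field_simp

/-- Lower semicontinuity in the form used everywhere. -/
theorem lsc {K : Set E} (hK : StarB K) {u : E} (hu : u ∈ P K) {b : ℝ} (hb : 1 < b)
    (h : b • u ∈ K) : ∀ᶠ v in 𝓝[P K] u, v ∈ K := by
  have h1 : 1 < rad K u :=
    lt_of_lt_of_le hb ((smul_mem_iff_le_rad hK hu.1 (by linarith)).1 h)
  have h2 : ∀ᶠ v in 𝓝[P K] u, 1 < rad K v := (hK.cont u hu).eventually (lt_mem_nhds h1)
  filter_upwards [h2, self_mem_nhdsWithin] with v hv hvP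
  have := (smul_mem_iff_le_rad hK hvP.1 (zero_le_one)).2 hv.le
  rwa [one_smul] at this

/-- Sequential form of `lsc`. -/
theorem lsc_seq {K : Set E} (hK : StarB K) {u : E} (hu : u ∈ P K) {b : ℝ} (hb : 1 < b)
    (h : b • u ∈ K) {v : ℕ → E} (hv : Tendsto v atTop (𝓝 u)) (hvP : ∀ᶠ i in atTop, v i ∈ P K) :
    ∀ᶠ i in atTop, v i ∈ K :=
  (tendsto_nhdsWithin_iff.2 ⟨hv, hvP⟩).eventually (lsc hK hu hb h)

/-- If `c < 1`, `u ∈ K`, `u ≠ 0` and `v i → u` with `v i ∈ P K`, then `c • v i ∈ K` eventually. -/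
theorem lsc_smul {K : Set E} (hK : StarB K) {u : E} (hu : u ≠ 0) (huK : u ∈ K) {c : ℝ}
    (hc0 : 0 < c) (hc : c < 1) {v : ℕ → E} (hv : Tendsto v atTop (𝓝 u))
    (hvP : ∀ᶠ i in atTop, v i ∈ P K) : ∀ᶠ i in atTop, c • v i ∈ K := by
  have huP : c • u ∈ P K := P_smul (mem_P_of_mem hu huK) hc0
  have hb : (1 : ℝ) < c⁻¹ := (one_lt_inv₀ hc0).2 hc
  apply lsc_seq hK huP hb (by rwa [smul_smul, inv_mul_cancel₀ hc0.ne', one_smul])
    (hv.const_smul c)
  filter_upwards [hvP] with i hi using P_smul hi hc0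

theorem interior_diff_subset {K : Set E} : interior K \ {0} ⊆ interior (P K) := by
  apply interior_maximal
  · rintro u ⟨hu, h0⟩
    exact mem_P_of_mem (by simpa using h0) (interior_subset hu)
  · exact isOpen_interior.sdiff isClosed_singleton

/-- `P K` is contained in the closure of its interior. -/
theorem P_subset_closure_interior {K : Set E} (hK : StarB K) :
    P K ⊆ closure (interior (P K)) := by
  rintro u ⟨h0, t, ht, h⟩
  have h1 : t • u ∈ closure (interior K) := by rw [hK.body]; exact h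
  have h2 : t • u ∈ closure (interior (P K)) := by
    rw [mem_closure_iff_nhds] at h1 ⊢
    intro s hs
    obtain ⟨v, hv1, hv2⟩ := h1 (s ∩ {0}ᶜ) (inter_mem hs
      (isOpen_compl_singleton.mem_nhds (smul_ne_zero ht.ne' h0)))
    exact ⟨v, hv1.1, interior_diff_subset ⟨hv2, hv1.2⟩⟩
  have h3 := closure_smul_mem (fun v hv c hc => interior_P_smul hv hc) h2 (inv_pos.2 ht)
  rwa [smul_smul, inv_mul_cancel₀ ht.ne', one_smul] at h3

/-! ## The relation `Rel` -/

theorem Rel.symm {K L : Set E} {S : Submodule ℝ E} {x : E} {l : ℝ} (h : Rel K L S x l) :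
    Rel L K S (-(l⁻¹ • x)) l⁻¹ := by
  obtain ⟨hx, hl, h⟩ := h
  refine ⟨S.neg_mem (S.smul_mem _ hx), inv_pos.2 hl, fun z hz => ?_⟩
  have hm : -(l⁻¹ • x) + l⁻¹ • z ∈ S := S.add_mem (S.neg_mem (S.smul_mem _ hx)) (S.smul_mem _ hz)
  rw [← h _ hm]
  have : x + l • (-(l⁻¹ • x) + l⁻¹ • z) = z := by
    rw [smul_add, smul_neg, smul_smul, smul_smul, mul_inv_cancel₀ hl.ne', one_smul, one_smul]
    abel
  rw [this]

theorem Rel.restrict {K L : Set E} {S U : Submodule ℝ E} {x : E} {l : ℝ} (h : Rel K L S x l)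
    (hU : U ≤ S) (hx : x ∈ U) : Rel K L U x l :=
  ⟨hx, h.2.1, fun z hz => h.2.2 z (hU hz)⟩

theorem Rel.x_mem {K L : Set E} (hL : (0 : E) ∈ L) {S : Submodule ℝ E} {x : E} {l : ℝ}
    (h : Rel K L S x l) : x ∈ K := by
  have := (h.2.2 0 S.zero_mem).2 hL
  simpa using this

theorem Rel.y_mem {K L : Set E} (hK : (0 : E) ∈ K) {S : Submodule ℝ E} {x : E} {l : ℝ}
    (h : Rel K L S x l) : -(l⁻¹ • x) ∈ L := h.symm.x_mem hK

theorem Rel.mem_K {K L : Set E} {S : Submodule ℝ E} {x : E} {l : ℝ} (h : Rel K L S x l) {z : E}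
    (hz : z ∈ S) (hzL : z ∈ L) : x + l • z ∈ K := (h.2.2 z hz).2 hzL

theorem Rel.mem_L {K L : Set E} {S : Submodule ℝ E} {x : E} {l : ℝ} (h : Rel K L S x l) {p : E}
    (hp : p ∈ S) (hpK : p ∈ K) : l⁻¹ • (p - x) ∈ L := by
  have h1 : l⁻¹ • (p - x) ∈ S := S.smul_mem _ (S.sub_mem hp h.1)
  rw [← h.2.2 _ h1, smul_smul, mul_inv_cancel₀ h.2.1.ne', one_smul]
  simpa using hpK

/-- `x` sees `K ∩ S`. -/
theorem Rel.sees {K L : Set E} (hL : ∀ x ∈ L, ∀ t : ℝ, 0 ≤ t → t ≤ 1 → t • x ∈ L)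
    (hL0 : (0 : E) ∈ L) (hK : ∀ x ∈ K, ∀ t : ℝ, 0 ≤ t → t ≤ 1 → t • x ∈ K)
    {S : Submodule ℝ E} {x : E} {l : ℝ} (h : Rel K L S x l) : Sees K S x := by
  intro p hp hpS a b ha hb hab
  -- first the segment from `x` to `p`
  have key : ∀ s : ℝ, 0 ≤ s → s ≤ 1 → (1 - s) • x + s • p ∈ K := by
    intro s hs hs1
    have h1 := h.mem_K (S.smul_mem s (S.smul_mem _ (S.sub_mem hpS h.1)))
      (hL _ (h.mem_L hpS hp) s hs hs1)
    have : x + l • (s • (l⁻¹ • (p - x))) = (1 - s) • x + s • p := by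
      rw [smul_comm s, smul_smul, mul_inv_cancel₀ h.2.1.ne', one_smul]
      module
    rwa [this] at h1
  rcases eq_or_lt_of_le (add_nonneg ha hb) with h0 | h0
  · have ha0 : a = 0 := by linarith
    have hb0 : b = 0 := by linarith
    rw [ha0, hb0, zero_smul, zero_smul, add_zero]
    have := h.x_mem hL0
    have h2 := hK _ this 0 le_rfl zero_le_one
    rwa [zero_smul] at h2
  · have h1 := hK _ (key (b / (a + b)) (by positivity) ((div_le_one h0).2 (by linarith)))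
      (a + b) h0.le hab
    have : (a + b) • ((1 - b / (a + b)) • x + (b / (a + b)) • p) = a • x + b • p := by
      rw [smul_add, smul_smul, smul_smul]
      congr 2
      · field_simp; ring
      · field_simp
    rwa [this] at h1

theorem Rel.seesK {K L : Set E} (hK : StarB K) (hL : StarB L) {S : Submodule ℝ E} {x : E} {l : ℝ}
    (h : Rel K L S x l) : Sees K S x := h.sees hL.star hL.zero hK.star

theorem Rel.seesL {K L : Set E} (hK : StarB K) (hL : StarB L) {S : Submodule ℝ E} {x : E} {l : ℝ}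
    (h : Rel K L S x l) : Sees L S (-(l⁻¹ • x)) := h.symm.sees hK.star hK.zero hL.star

/-- Cone form of `Sees`. -/
theorem Sees.cone {K : Set E} {S : Submodule ℝ E} {z u : E} (h : Sees K S z) (huS : u ∈ S)
    (hu : u ∈ P K) {a b : ℝ} (ha : 0 ≤ a) (hb : 0 ≤ b) (hne : a • z + b • u ≠ 0) :
    a • z + b • u ∈ P K := by
  obtain ⟨h0, t, ht, htu⟩ := hu
  have hs : 0 < a + b / t := by
    rcases eq_or_lt_of_le ha with h1 | h1
    · rcases eq_or_lt_of_le hb with h2 | h2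
      · exfalso; apply hne; rw [← h1, ← h2]; simp
      · rw [← h1]; positivity
    · positivity
  refine ⟨hne, (a + b / t)⁻¹, inv_pos.2 hs, ?_⟩
  have h1 := h _ htu (S.smul_mem _ huS) ((a + b / t)⁻¹ * a) ((a + b / t)⁻¹ * (b / t))
    (by positivity) (by positivity) (by rw [← mul_add, inv_mul_cancel₀ hs.ne'])
  have : ((a + b / t)⁻¹ * a) • z + ((a + b / t)⁻¹ * (b / t)) • t • u =
      (a + b / t)⁻¹ • (a • z + b • u) := by
    rw [smul_add, smul_smul, smul_smul, smul_smul]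
    congr 2
    field_simp
  rwa [this] at h1

theorem Sees.mem {K : Set E} (hK : (0 : E) ∈ K) {S : Submodule ℝ E} {z : E} (h : Sees K S z) :
    z ∈ K := by
  have := h 0 hK S.zero_mem 1 0 zero_le_one le_rfl (by norm_num)
  simpa using this

section star

variable {K L : Set E} (hK : StarB K) (hL : StarB L) {S : Submodule ℝ E} {x : E} {l : ℝ}

include hK hL

set_option linter.unusedSectionVars false in
theorem Rel.x_mem_P (h : Rel K L S x l) (hx : x ≠ 0) : x ∈ P K :=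
  mem_P_of_mem hx (h.x_mem hL.zero)

set_option linter.unusedSectionVars false in
theorem Rel.neg_mem_P (h : Rel K L S x l) (hx : x ≠ 0) : -x ∈ P L := by
  refine ⟨neg_ne_zero.2 hx, l⁻¹, inv_pos.2 h.2.1, ?_⟩
  rw [smul_neg]
  exact h.y_mem hK.zero

/-- (F) for `K`. -/
theorem Rel.coneK (h : Rel K L S x l) {u : E} (huS : u ∈ S) (hu : u ∈ P K) {a b : ℝ}
    (ha : 0 ≤ a) (hb : 0 ≤ b) (hne : a • x + b • u ≠ 0) : a • x + b • u ∈ P K :=
  (h.seesK hK hL).cone huS hu ha hb hne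

/-- (F) for `L`. -/
theorem Rel.coneL (h : Rel K L S x l) {u : E} (huS : u ∈ S) (hu : u ∈ P L) {a b : ℝ}
    (ha : 0 ≤ a) (hb : 0 ≤ b) (hne : a • (-x) + b • u ≠ 0) : a • (-x) + b • u ∈ P L := by
  have h1 := h.seesL hK hL
  have h2 : (a * l) • (-(l⁻¹ • x)) + b • u = a • (-x) + b • u := by
    rw [smul_neg, smul_neg, smul_smul, mul_assoc, mul_inv_cancel₀ h.2.1.ne', mul_one]
  rw [← h2] at hne ⊢
  exact h1.cone huS hu (mul_nonneg ha h.2.1.le) hb hne

/-- (F3): if `-x` is a direction of `K`, then the directions of `L` in `S` are directions of `K`. -/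
theorem Rel.F3 (h : Rel K L S x l) (hx : x ≠ 0) (hnx : -x ∈ P K) {f : E} (hfS : f ∈ S)
    (hf : f ∈ P L) : f ∈ P K := by
  have hl := h.2.1
  -- parallel case
  by_cases hpar : ∃ c : ℝ, f = c • x
  · obtain ⟨c, rfl⟩ := hpar
    rcases lt_trichotomy c 0 with hc | hc | hc
    · have : c • x = (-c) • (-x) := by rw [smul_neg, neg_smul, neg_neg]
      rw [this]
      exact P_smul hnx (by linarith)
    · exact absurd (by rw [hc, zero_smul]) hf.1
    · exact P_smul (h.x_mem_P hK hL hx) hc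
  -- `y` and `(1 + η') y` in `L`
  obtain ⟨_, η, hη, hηx⟩ := hnx
  set y : E := -(l⁻¹ • x) with hy
  have hyL : y ∈ L := h.y_mem hK.zero
  have hy0 : y ≠ 0 := by
    rw [hy, neg_ne_zero]; exact smul_ne_zero (inv_ne_zero hl.ne') hx
  have hyS : y ∈ S := S.neg_mem (S.smul_mem _ h.1)
  have h1 : (1 + η) • y ∈ L := by
    have := h.mem_L (S.smul_mem η (S.neg_mem h.1)) hηx
    have e : l⁻¹ • (η • -x - x) = (1 + η) • y := by
      rw [hy]; module
    rwa [e] at this
  have hyP : y ∈ P L := mem_P_of_mem hy0 hyL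
  have hev := lsc hL hyP (by linarith : (1 : ℝ) < 1 + η) h1
  -- the points `y + s f`
  have hcone : ∀ s : ℝ, 0 < s → y + s • f ∈ P L := by
    intro s hs
    have hne : (1 : ℝ) • y + s • f ≠ 0 := by
      intro h0
      apply hpar
      refine ⟨s⁻¹ * l⁻¹, ?_⟩
      have : s • f = l⁻¹ • x := by
        rw [one_smul] at h0
        rw [hy] at h0
        have := eq_neg_of_add_eq_zero_right h0
        rw [this, neg_neg]
      rw [mul_smul, ← this, smul_smul, inv_mul_cancel₀ hs.ne', one_smul]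
    have := (h.seesL hK hL).cone hfS hf zero_le_one hs.le hne
    rwa [one_smul] at this
  have htend : Tendsto (fun s : ℝ => y + s • f) (𝓝[>] 0) (𝓝[P L] y) := by
    rw [tendsto_nhdsWithin_iff]
    constructor
    · have : Tendsto (fun s : ℝ => y + s • f) (𝓝 0) (𝓝 (y + (0 : ℝ) • f)) :=
        (continuous_const.add (continuous_id.smul continuous_const)).tendsto 0
      rw [zero_smul, add_zero] at this
      exact this.mono_left nhdsWithin_le_nhds
    · filter_upwards [self_mem_nhdsWithin] with s hs using hcone s hs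
  obtain ⟨s, hs, hs0⟩ := ((htend.eventually hev).and self_mem_nhdsWithin).exists
  have hs0' : (0 : ℝ) < s := hs0
  have h2 := h.mem_K (S.add_mem hyS (S.smul_mem s hfS)) hs
  have e2 : x + l • (y + s • f) = (l * s) • f := by
    rw [hy, smul_add, smul_neg, smul_smul, mul_inv_cancel₀ hl.ne', one_smul, smul_smul]
    abel
  rw [e2] at h2
  exact ⟨hf.1, l * s, by positivity, h2⟩

/-- (F3'): if `x` is a direction of `L`, then the directions of `K` in `S` are directions of `L`. -/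
theorem Rel.F3' (h : Rel K L S x l) (hx : x ≠ 0) (hxL : x ∈ P L) {f : E} (hfS : f ∈ S)
    (hf : f ∈ P K) : f ∈ P L := by
  have hl := h.2.1
  refine (h.symm).F3 hL hK (neg_ne_zero.2 (smul_ne_zero (inv_ne_zero hl.ne') hx)) ?_ hfS hf
  rw [neg_neg]
  exact P_smul hxL (inv_pos.2 hl)

/-- (M): if `S` contains a direction of `L` which is not a direction of `K`. -/
theorem Rel.M (h : Rel K L S x l) {f : E} (hfS : f ∈ S) (hf : f ∈ P L) (hfK : f ∉ P K) :
    x ≠ 0 ∧ -x ∈ C K L := by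
  have hx : x ≠ 0 := by
    rintro rfl
    apply hfK
    obtain ⟨h0, t, ht, htf⟩ := hf
    refine ⟨h0, l * t, mul_pos h.2.1 ht, ?_⟩
    have := h.mem_K (S.smul_mem t hfS) htf
    rwa [zero_add, smul_smul] at this
  refine ⟨hx, h.neg_mem_P hK hL hx, fun hn => hfK (h.F3 hK hL hx hn hfS hf), ?_⟩
  rw [neg_neg]
  exact h.x_mem_P hK hL hx

end star

/-- Bounds for the ratio: upper bound. -/
theorem Rel.bound {K L : Set E} {S : Submodule ℝ E} {x : E} {l : ℝ} (h : Rel K L S x l)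
    (hL0 : (0 : E) ∈ L) {M : ℝ} (hM : ∀ z ∈ K, ‖z‖ ≤ M) {q : E} (hqS : q ∈ S) (hq : q ∈ L) :
    l * ‖q‖ ≤ 2 * M := by
  have h1 := hM _ (h.mem_K hqS hq)
  have h2 := hM _ (h.x_mem hL0)
  have h3 : ‖l • q‖ = l * ‖q‖ := by rw [norm_smul, Real.norm_eq_abs, abs_of_pos h.2.1]
  have h4 : ‖l • q‖ ≤ ‖x + l • q‖ + ‖x‖ := by
    have : l • q = (x + l • q) - x := by abel
    calc ‖l • q‖ = ‖(x + l • q) - x‖ := by rw [← this]
      _ ≤ _ := norm_sub_le _ _
  linarith

/-- Bounds for the ratio: lower bound. -/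
theorem Rel.bound' {K L : Set E} {S : Submodule ℝ E} {x : E} {l : ℝ} (h : Rel K L S x l)
    (hK0 : (0 : E) ∈ K) {M : ℝ} (hM : ∀ z ∈ L, ‖z‖ ≤ M) {p : E} (hpS : p ∈ S) (hp : p ∈ K) :
    ‖p‖ ≤ 2 * M * l := by
  have h1 := h.symm.bound hK0 hM hpS hp
  rw [inv_mul_le_iff₀ h.2.1] at h1
  linarith

/-- Uniqueness of the homothety. -/
theorem Rel.unique {K L : Set E} (hK : Bornology.IsBounded K) (hK0 : (0 : E) ∈ K)
    {S : Submodule ℝ E} {x x' : E} {l l' : ℝ} (h : Rel K L S x l) (h' : Rel K L S x' l')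
    {p : E} (hpS : p ∈ S) (hpK : p ∈ K) (hp : p ≠ 0) : x = x' ∧ l = l' := by
  -- it suffices to treat `l ≤ l'`
  have key : ∀ (x x' : E) (l l' : ℝ), Rel K L S x l → Rel K L S x' l' → ¬ l < l' := by
    intro x x' l l' h h' hlt
    set μ : ℝ := l' / l with hμ
    have hl := h.2.1
    have hl' := h'.2.1
    have hμ1 : 1 < μ := (one_lt_div hl).2 hlt
    -- the map `T z = x' + μ (z - x)` preserves `K ∩ S`
    have hT : ∀ z ∈ S, z ∈ K → x' + μ • (z - x) ∈ K ∧ x' + μ • (z - x) ∈ S := by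
      intro z hzS hzK
      refine ⟨?_, S.add_mem h'.1 (S.smul_mem _ (S.sub_mem hzS h.1))⟩
      have h1 := h'.mem_K (S.smul_mem _ (S.sub_mem hzS h.1)) (h.mem_L hzS hzK)
      rwa [smul_smul, ← div_eq_mul_inv] at h1
    obtain ⟨M, hM⟩ := hK.exists_norm_le
    -- iterate from `0` and `p`
    let T : E → E := fun z => x' + μ • (z - x)
    have hiter : ∀ n : ℕ, (T^[n] 0 ∈ K ∧ T^[n] 0 ∈ S) ∧ (T^[n] p ∈ K ∧ T^[n] p ∈ S) ∧
        ‖T^[n] p - T^[n] 0‖ = μ ^ n * ‖p‖ := by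
      intro n
      induction n with
      | zero => exact ⟨⟨hK0, S.zero_mem⟩, ⟨hpK, hpS⟩, by simp⟩
      | succ n ih =>
        obtain ⟨⟨a1, a2⟩, ⟨b1, b2⟩, c⟩ := ih
        refine ⟨?_, ?_, ?_⟩
        · rw [Function.iterate_succ_apply']; exact hT _ a2 a1
        · rw [Function.iterate_succ_apply']; exact hT _ b2 b1
        · rw [Function.iterate_succ_apply', Function.iterate_succ_apply']
          have : T (T^[n] p) - T (T^[n] 0) = μ • (T^[n] p - T^[n] 0) := by
            simp only [T]; module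
          rw [this, norm_smul, c, Real.norm_eq_abs, abs_of_pos (by linarith), pow_succ]
          ring
    have hpos : 0 < ‖p‖ := norm_pos_iff.2 hp
    have hunb := tendsto_pow_atTop_atTop_of_one_lt hμ1
    obtain ⟨n, hn⟩ := (hunb.eventually (eventually_gt_atTop (2 * M / ‖p‖))).exists
    obtain ⟨⟨a1, a2⟩, ⟨b1, b2⟩, c⟩ := hiter n
    have h5 : ‖T^[n] p - T^[n] 0‖ ≤ 2 * M := by
      have := norm_sub_le (T^[n] p) (T^[n] 0)
      have := hM _ a1
      have := hM _ b1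
      linarith
    rw [c] at h5
    have hn' := (div_lt_iff₀ hpos).1 hn
    linarith
  have hll : l = l' := le_antisymm (not_lt.1 (key _ _ _ _ h' h)) (not_lt.1 (key _ _ _ _ h h'))
  refine ⟨?_, hll⟩
  subst hll
  -- now a translation preserves `K ∩ S`
  have hl := h.2.1
  by_contra hne
  have hT : ∀ z ∈ S, z ∈ K → (z + (x' - x)) ∈ K ∧ (z + (x' - x)) ∈ S := by
    intro z hzS hzK
    refine ⟨?_, S.add_mem hzS (S.sub_mem h'.1 h.1)⟩
    have h1 := h'.mem_K (S.smul_mem _ (S.sub_mem hzS h.1)) (h.mem_L hzS hzK)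
    rw [smul_smul, mul_inv_cancel₀ hl.ne', one_smul] at h1
    have : x' + (z - x) = z + (x' - x) := by abel
    rwa [this] at h1
  obtain ⟨M, hM⟩ := hK.exists_norm_le
  have hiter : ∀ n : ℕ, (n : ℝ) • (x' - x) ∈ K ∧ (n : ℝ) • (x' - x) ∈ S := by
    intro n
    induction n with
    | zero => simpa using hK0
    | succ n ih =>
      have := hT _ ih.2 ih.1
      have e : (n : ℝ) • (x' - x) + (x' - x) = ((n + 1 : ℕ) : ℝ) • (x' - x) := by
        push_cast; module
      rwa [e] at this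
  have hpos : 0 < ‖x' - x‖ := norm_pos_iff.2 (sub_ne_zero.2 (Ne.symm hne))
  obtain ⟨n, hn⟩ := exists_nat_gt (M / ‖x' - x‖)
  have h5 := hM _ (hiter n).1
  rw [norm_smul, Real.norm_natCast] at h5
  rw [div_lt_iff₀ hpos] at hn
  linarith

theorem Rel.uniq {K L : Set E} (hK : StarB K) {S : Submodule ℝ E} {x x' : E} {l l' : ℝ}
    (h : Rel K L S x l) (h' : Rel K L S x' l') {p : E} (hpS : p ∈ S) (hp : p ∈ P K) :
    x = x' ∧ l = l' := by
  obtain ⟨h0, t, ht, htp⟩ := hp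
  exact h.unique hK.compact.isBounded hK.zero h' (S.smul_mem t hpS) htp (smul_ne_zero ht.ne' h0)

theorem Sec.symm {K L : Set E} {k : ℕ} (h : Sec K L k) : Sec L K k := by
  intro S hS
  obtain ⟨x, l, hr⟩ := h S hS
  exact ⟨_, _, hr.symm⟩

theorem Hmt.symm {K L : Set E} (h : Hmt K L) : Hmt L K := by
  obtain ⟨x, l, hr⟩ := h
  exact ⟨_, _, hr.symm⟩

/-- Extending a subspace to one of given dimension. -/
theorem exists_le_finrank [FiniteDimensional ℝ E] (U : Submodule ℝ E) {k : ℕ}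
    (h1 : finrank ℝ U ≤ k) (h2 : k ≤ finrank ℝ E) :
    ∃ S : Submodule ℝ E, U ≤ S ∧ finrank ℝ S = k := by
  obtain ⟨m, rfl⟩ := Nat.exists_eq_add_of_le h1
  clear h1
  induction m with
  | zero => exact ⟨U, le_rfl, by simp⟩
  | succ m ih =>
    obtain ⟨S, hUS, hS⟩ := ih (by omega)
    have hne : S ≠ ⊤ := by
      rintro rfl
      rw [finrank_top] at hS
      omega
    obtain ⟨v, hv⟩ : ∃ v, v ∉ S := by
      by_contra hcon
      push Not at hcon
      exact hne (Submodule.eq_top_iff'.2 hcon)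
    refine ⟨S ⊔ Submodule.span ℝ {v}, hUS.trans le_sup_left, ?_⟩
    have hv0 : v ≠ 0 := fun h => hv (h ▸ S.zero_mem)
    have hdisj : S ⊓ Submodule.span ℝ {v} = ⊥ := by
      rw [eq_bot_iff]
      intro w hw
      obtain ⟨hw1, hw2⟩ := Submodule.mem_inf.1 hw
      obtain ⟨c, rfl⟩ := Submodule.mem_span_singleton.1 hw2
      by_cases hc : c = 0
      · simp [hc]
      · exfalso
        apply hv
        have := S.smul_mem c⁻¹ hw1
        rwa [smul_smul, inv_mul_cancel₀ hc, one_smul] at this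
    have := Submodule.finrank_sup_add_finrank_inf_eq S (Submodule.span ℝ {v})
    rw [hdisj, finrank_bot, finrank_span_singleton hv0, hS] at this
    omega

end Pool.Agent.H64.SW
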