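import Mathlib

/-!
# Star bodies with homothetic sections: walls, definitions (MP_bd4439_gt)

Directions are used in homogeneous form (all nonzero vectors).
`P K` = directions where the radial function is positive, `Q K` = where it vanishes.
`Rel K L S x l` : `K ∩ S = x + l (L ∩ S)` with `x ∈ S`, `l > 0`.
-/

namespace Pool.Agent.H64.SW

open Set Filter Topology

variable {E : Type*} [NormedAddCommGroup E] [InnerProductSpace ℝ E]

/-- Radial function (homogeneous of degree `-1`): the largest `a ≥ 0` with `a u ∈ K`. -/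
noncomputable def rad (K : Set E) (u : E) : ℝ := sSup {a : ℝ | 0 ≤ a ∧ a • u ∈ K}

/-- The nonzero directions in which the radial function is positive. -/
def P (K : Set E) : Set E := {u | u ≠ 0 ∧ ∃ t : ℝ, 0 < t ∧ t • u ∈ K}

/-- The nonzero directions in which the radial function vanishes. -/
def Q (K : Set E) : Set E := {u | u ≠ 0 ∧ u ∉ P K}

/-- Star body (the radial function is continuous where it is positive). -/
structure StarB (K : Set E) : Prop where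
  compact : IsCompact K
  zero : (0 : E) ∈ K
  star : ∀ x ∈ K, ∀ t : ℝ, 0 ≤ t → t ≤ 1 → t • x ∈ K
  cont : ContinuousOn (rad K) (P K)
  body : closure (interior K) = K

/-- `K ∩ S = x + l (L ∩ S)`, `x ∈ S`, `l > 0`. -/
def Rel (K L : Set E) (S : Submodule ℝ E) (x : E) (l : ℝ) : Prop :=
  x ∈ S ∧ 0 < l ∧ ∀ z ∈ S, (x + l • z ∈ K ↔ z ∈ L)

/-- All `k`-dimensional sections are homothetic. -/
def Sec (K L : Set E) (k : ℕ) : Prop :=
  ∀ S : Submodule ℝ E, Module.finrank ℝ S = k → ∃ (x : E) (l : ℝ), Rel K L S x l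

/-- `K` and `L` are homothetic. -/
def Hmt (K L : Set E) : Prop := ∃ (x : E) (l : ℝ), Rel K L ⊤ x l

/-- Directions `f` with `ρ_K(f) = 0`, `ρ_L(f) > 0`, `ρ_K(-f) > 0`. -/
def C (K L : Set E) : Set E := {f | f ∈ P L ∧ f ∉ P K ∧ -f ∈ P K}

/-- `z` sees all points of `K ∩ R` (together with the origin). -/
def Sees (K : Set E) (R : Submodule ℝ E) (z : E) : Prop :=
  ∀ p ∈ K, p ∈ R → ∀ a b : ℝ, 0 ≤ a → 0 ≤ b → a + b ≤ 1 → a • z + b • p ∈ K

/-- No walls seen from `f`: `closure (Q K) + (0,∞) f ⊆ interior (Q K)`. -/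
def NW (K : Set E) (f : E) : Prop :=
  ∀ u ∈ closure (Q K), ∀ a : ℝ, 0 < a → a • f + u ∈ interior (Q K)

/-- Antipodal boundary directions of `Q K`. -/
def G (K : Set E) : Set E :=
  {w | w ≠ 0 ∧ w ∈ closure (Q K) ∧ -w ∈ closure (Q K) ∧ w ∉ interior (Q K) ∧ -w ∉ interior (Q K)}

/-- Two-dimensional consequences of the descent. -/
def D2 (K L : Set E) : Prop :=
  ∀ f ∈ C K L, ∀ R : Submodule ℝ E, Module.finrank ℝ R = 2 → f ∈ R →
    ∃ z ∈ R, z ≠ 0 ∧ z ∈ P K ∧ -z ∈ C K L ∧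
      (∀ u ∈ R, u ∈ P K → ∀ a b : ℝ, 0 ≤ a → 0 ≤ b → a • z + b • u ≠ 0 → a • z + b • u ∈ P K) ∧
      (∀ u ∈ R, u ∈ P L → ∀ a b : ℝ, 0 ≤ a → 0 ≤ b →
        a • (-z) + b • u ≠ 0 → a • (-z) + b • u ∈ P L) ∧
      ((∃ g ∈ R, g ∈ P K ∧ g ∉ P L) → z ∈ C L K)

/-- Infinitely many antipodal boundary directions in `V`. -/
def Inf (K : Set E) (V : Submodule ℝ E) : Prop :=
  ∀ W : Finset E, ∃ w ∈ V, w ∈ G K ∧ ∀ w' ∈ W, ∀ c : ℝ, w ≠ c • w'

/-- Convergence of subspaces (Painlevé–Kuratowski). -/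
def SConv (Si : ℕ → Submodule ℝ E) (S : Submodule ℝ E) : Prop :=
  (∀ p ∈ S, ∃ pi : ℕ → E, (∀ i, pi i ∈ Si i) ∧ Tendsto pi atTop (𝓝 p)) ∧
  (∀ (pi : ℕ → E) (φ : ℕ → ℕ) (p : E), (∀ i, pi i ∈ Si i) → StrictMono φ →
    Tendsto (pi ∘ φ) atTop (𝓝 p) → p ∈ S)

/-- Lower end of `{s | v + s f ∈ closure (Q K)}`. -/
noncomputable def kap (K : Set E) (f v : E) : ℝ := sInf {s : ℝ | v + s • f ∈ closure (Q K)}

/-- Invariant of the descent from `k`-planes to `j`-planes containing `R`: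
`A` is a set of triples `(W, z, z')`. -/
structure Inv (K L : Set E) (R : Submodule ℝ E) (j : ℕ) (A : Set (Submodule ℝ E × E × E)) :
    Prop where
  ex : ∀ W : Submodule ℝ E, R ≤ W → Module.finrank ℝ W = j → ∃ z z' : E, (W, z, z') ∈ A
  dim : ∀ W z z', (W, z, z') ∈ A → R ≤ W ∧ Module.finrank ℝ W = j
  mem : ∀ W z z', (W, z, z') ∈ A → z ∈ W ∧ z' ∈ W
  sees : ∀ W z z', (W, z, z') ∈ A → Sees K W z ∧ Sees L W z'
  anti : ∀ W z z', (W, z, z') ∈ A → ∃ τ : ℝ, 0 < τ ∧ z' = -(τ • z)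
  nK : ∀ z z' p, (z, z', p) ∈ closure {q : E × E × E | ∃ W, (W, q.1, q.2.1) ∈ A ∧
      q.2.2 ∈ K ∧ q.2.2 ∈ W} → z ≠ 0 ∧ z' ≠ 0 ∧ ∀ τ : ℝ, 0 < τ → p ≠ -(τ • z)
  nL : (∃ g ∈ R, g ∈ P K ∧ g ∉ P L) → ∀ z z' p, (z, z', p) ∈ closure {q : E × E × E |
      ∃ W, (W, q.1, q.2.1) ∈ A ∧ q.2.2 ∈ L ∧ q.2.2 ∈ W} → ∀ τ : ℝ, 0 < τ → p ≠ -(τ • z')

end Pool.Agent.H64.SW
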