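import Pool.Agent.H64.SW.Basic

/-!
# INVB: base of the descent (MP_bd4439_gt, walls)
-/

namespace Pool.Agent.H64.SW

open Set Filter Topology Module

variable {E : Type*} [NormedAddCommGroup E] [InnerProductSpace ℝ E]

/-- LEMMA A. -/
theorem lemA {K L : Set E} (hK : StarB K) (hL : StarB L) {f : E} (hf : f ∈ P L) (hfK : f ∉ P K)
    {S : ℕ → Submodule ℝ E} {x p : ℕ → E} {l : ℕ → ℝ} (hr : ∀ i, Rel K L (S i) (x i) (l i))
    (hfS : ∀ i, f ∈ S i) {z : E} (hx : Tendsto x atTop (𝓝 z)) (hz : z ≠ 0) {l₀ : ℝ}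
    (hl : Tendsto l atTop (𝓝 l₀)) (hl0 : 0 < l₀) (hpK : ∀ i, p i ∈ K) (hpS : ∀ i, p i ∈ S i)
    {τ : ℝ} (hτ : 0 < τ) (hp : Tendsto p atTop (𝓝 (-(τ • z)))) : False := by
  have hKc := hK.compact.isClosed
  have hLc := hL.compact.isClosed
  -- `z` and `-τ z` in `K`
  have hzK : z ∈ K := hKc.mem_of_tendsto hx (Eventually.of_forall fun i => (hr i).x_mem hL.zero)
  have hτK : -(τ • z) ∈ K := hKc.mem_of_tendsto hp (Eventually.of_forall hpK)
  have hpar : ∀ c : ℝ, f ≠ c • z := by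
    rintro c rfl
    rcases lt_trichotomy c 0 with hc | hc | hc
    · apply hfK
      refine ⟨hf.1, τ / (-c), div_pos hτ (by linarith), ?_⟩
      have hc' : c ≠ 0 := hc.ne
      have : (τ / (-c)) • c • z = -(τ • z) := by
        rw [smul_smul, ← neg_smul]
        congr 1
        rw [div_neg, neg_mul, div_mul_cancel₀ _ hc']
      rw [this]; exact hτK
    · exact hf.1 (by rw [hc, zero_smul])
    · exact hfK (P_smul (mem_P_of_mem hz hzK) hc)
  -- the limit `y`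
  have hlinv : Tendsto (fun i => (l i)⁻¹) atTop (𝓝 l₀⁻¹) := hl.inv₀ hl0.ne'
  set y : E := -(l₀⁻¹ • z) with hy
  have hy0 : y ≠ 0 := by
    rw [hy, neg_ne_zero]; exact smul_ne_zero (inv_ne_zero hl0.ne') hz
  have hyi : Tendsto (fun i => -((l i)⁻¹ • x i)) atTop (𝓝 y) := (hlinv.smul hx).neg
  have hb : (1 + τ) • y ∈ L := by
    have h1 : Tendsto (fun i => (l i)⁻¹ • (p i - x i)) atTop (𝓝 (l₀⁻¹ • (-(τ • z) - z))) :=
      hlinv.smul (hp.sub hx)
    have h2 := hLc.mem_of_tendsto h1 (Eventually.of_forall fun i => (hr i).mem_L (hpS i) (hpK i))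
    have e : l₀⁻¹ • (-(τ • z) - z) = (1 + τ) • y := by rw [hy]; module
    rwa [e] at h2
  have hyP : y ∈ P L := mem_P_of_smul_mem hy0 (by linarith : (0 : ℝ) < 1 + τ) hb
  have hne : ∀ s : ℝ, 0 < s → y + s • f ≠ 0 := by
    intro s hs h0
    apply hpar (s⁻¹ * l₀⁻¹)
    have h1 : s • f = l₀⁻¹ • z := by
      have := eq_neg_of_add_eq_zero_right h0
      rw [this, hy, neg_neg]
    rw [mul_smul, ← h1, smul_smul, inv_mul_cancel₀ hs.ne', one_smul]
  obtain ⟨hf0, t, ht, htf⟩ := hf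
  -- `y + s f` in `P L`
  have hcone : ∀ s : ℝ, 0 < s → y + s • f ∈ P L := by
    intro s hs
    have hN : 0 < 1 + s / t := by positivity
    refine ⟨hne s hs, (1 + s / t)⁻¹, inv_pos.2 hN, ?_⟩
    have h1 : ∀ i, (1 + s / t)⁻¹ • (-((l i)⁻¹ • x i)) + ((1 + s / t)⁻¹ * (s / t)) • (t • f) ∈ L :=
      fun i => (hr i).seesL hK hL _ htf ((S i).smul_mem _ (hfS i)) _ _ (by positivity)
        (by positivity) (by
          rw [← mul_one_add, inv_mul_cancel₀ hN.ne'])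
    have h2 := hLc.mem_of_tendsto ((hyi.const_smul (1 + s / t)⁻¹).add_const
      (((1 + s / t)⁻¹ * (s / t)) • (t • f))) (Eventually.of_forall h1)
    have e : (1 + s / t)⁻¹ • y + ((1 + s / t)⁻¹ * (s / t)) • (t • f) =
        (1 + s / t)⁻¹ • (y + s • f) := by
      rw [smul_add, smul_smul, smul_smul]
      congr 2
      field_simp
    rwa [e] at h2
  -- choose `s`
  set η : ℝ := τ / 2 with hη
  have hη0 : 0 < η := by positivity
  obtain ⟨s, hs, hsL⟩ : ∃ s : ℝ, 0 < s ∧ (1 + η) • (y + s • f) ∈ L := by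
    have hyP2 : (1 + η) • y ∈ P L := P_smul hyP (by linarith)
    have hbig : (1 : ℝ) < (1 + τ) / (1 + η) := by
      rw [one_lt_div (by linarith)]; linarith
    have hbm : ((1 + τ) / (1 + η)) • ((1 + η) • y) ∈ L := by
      rw [smul_smul, div_mul_cancel₀ _ (by linarith : (1 + η) ≠ 0)]
      exact hb
    have hev := lsc hL hyP2 hbig hbm
    have htend : Tendsto (fun s : ℝ => (1 + η) • (y + s • f)) (𝓝[>] 0) (𝓝[P L] ((1 + η) • y)) := by
      rw [tendsto_nhdsWithin_iff]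
      constructor
      · have : Tendsto (fun s : ℝ => (1 + η) • (y + s • f)) (𝓝 0)
            (𝓝 ((1 + η) • (y + (0 : ℝ) • f))) :=
          ((continuous_const.add (continuous_id.smul continuous_const)).const_smul _).tendsto 0
        rw [zero_smul, add_zero] at this
        exact this.mono_left nhdsWithin_le_nhds
      · filter_upwards [self_mem_nhdsWithin] with s hs using P_smul (hcone s hs) (by linarith)
    obtain ⟨s, hs, hs0⟩ := ((htend.eventually hev).and self_mem_nhdsWithin).exists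
    exact ⟨s, hs0, hs⟩
  have hev2 : ∀ᶠ i in atTop, -((l i)⁻¹ • x i) + s • f ∈ L := by
    apply lsc_seq hL (hcone s hs) (by linarith : (1 : ℝ) < 1 + η) hsL (hyi.add_const (s • f))
    have hnz : ∀ᶠ i in atTop, -((l i)⁻¹ • x i) + s • f ≠ 0 :=
      (hyi.add_const (s • f)).eventually_ne (hne s hs)
    filter_upwards [hnz] with i hi
    have h3 := ((hr i).seesL hK hL).cone (hfS i) ⟨hf0, t, ht, htf⟩ zero_le_one hs.le
      (by rwa [one_smul])
    rwa [one_smul] at h3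
  obtain ⟨i, hi⟩ := hev2.exists
  have h4 := (hr i).mem_K ((S i).add_mem ((S i).neg_mem ((S i).smul_mem _ (hr i).1))
    ((S i).smul_mem s (hfS i))) hi
  have hli := (hr i).2.1
  have e : x i + l i • (-((l i)⁻¹ • x i) + s • f) = (l i * s) • f := by
    rw [smul_add, smul_neg, smul_smul, mul_inv_cancel₀ hli.ne', one_smul, smul_smul]
    abel
  rw [e] at h4
  exact hfK ⟨hf0, l i * s, by positivity, h4⟩

theorem invb : T_INVB := by
  intro E _ _ _ K L k hK hL hSec R f p hfR hf hfK hpR hp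
  obtain ⟨hf0, s, hs, hsf⟩ := id hf
  obtain ⟨hp0, t, ht, htp⟩ := id hp
  obtain ⟨MK, hMK⟩ := hK.compact.isBounded.exists_norm_le
  obtain ⟨ML, hML⟩ := hL.compact.isBounded.exists_norm_le
  have hsfpos : 0 < ‖s • f‖ := norm_pos_iff.2 (smul_ne_zero hs.ne' hf0)
  have htppos : 0 < ‖t • p‖ := norm_pos_iff.2 (smul_ne_zero ht.ne' hp0)
  have hMLpos : 0 < ML := lt_of_lt_of_le hsfpos (hML _ hsf)
  -- bounds for `l`
  have hbd : ∀ W : Submodule ℝ E, R ≤ W → ∀ (x : E) (l : ℝ), Rel K L W x l →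
      l ∈ Icc (‖t • p‖ / (2 * ML)) (2 * MK / ‖s • f‖) := by
    intro W hRW x l hr
    constructor
    · rw [div_le_iff₀ (by positivity)]
      have := hr.bound' hK.zero hML (W.smul_mem t (hRW hpR)) htp
      linarith
    · rw [le_div_iff₀ hsfpos]
      exact hr.bound hL.zero hMK (W.smul_mem s (hRW hfR)) hsf
  -- the set
  let A : Set (Submodule ℝ E × E × E) :=
    {a | R ≤ a.1 ∧ finrank ℝ a.1 = k ∧ ∃ l : ℝ, Rel K L a.1 a.2.1 l ∧ a.2.2 = -(l⁻¹ • a.2.1)}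
  have hA : ∀ W z z', (W, z, z') ∈ A ↔
      R ≤ W ∧ finrank ℝ W = k ∧ ∃ l : ℝ, Rel K L W z l ∧ z' = -(l⁻¹ • z) := fun _ _ _ => Iff.rfl
  -- sequences
  have hseq : ∀ (D : Set E) (z z' p' : E), (z, z', p') ∈ closure {q : E × E × E |
      ∃ W, (W, q.1, q.2.1) ∈ A ∧ q.2.2 ∈ D ∧ q.2.2 ∈ W} →
      ∃ (W : ℕ → Submodule ℝ E) (x : ℕ → E) (l : ℕ → ℝ) (q : ℕ → E) (l₀ : ℝ),
        (∀ i, R ≤ W i) ∧ (∀ i, Rel K L (W i) (x i) (l i)) ∧ (∀ i, q i ∈ D) ∧ (∀ i, q i ∈ W i) ∧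
        Tendsto x atTop (𝓝 z) ∧ Tendsto l atTop (𝓝 l₀) ∧ 0 < l₀ ∧ z' = -(l₀⁻¹ • z) ∧
        Tendsto q atTop (𝓝 p') := by
    intro D z z' p' hcl
    rw [mem_closure_iff_seq_limit] at hcl
    obtain ⟨q, hq, hqt⟩ := hcl
    choose W hW using hq
    choose l hl using fun i => ((hA _ _ _).1 (hW i).1).2.2
    obtain ⟨l₀, hl₀, φ, hφ, hlφ⟩ := isCompact_Icc.tendsto_subseq
      (fun i => hbd (W i) ((hA _ _ _).1 (hW i).1).1 _ _ (hl i).1)
    have hpos : 0 < l₀ := lt_of_lt_of_le (by positivity) hl₀.1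
    have h1 : Tendsto (fun i => (q i).1) atTop (𝓝 z) := (continuous_fst.tendsto _).comp hqt
    have h2 : Tendsto (fun i => (q i).2.1) atTop (𝓝 z') :=
      ((continuous_fst.comp continuous_snd).tendsto _).comp hqt
    have h3 : Tendsto (fun i => (q i).2.2) atTop (𝓝 p') :=
      ((continuous_snd.comp continuous_snd).tendsto _).comp hqt
    refine ⟨W ∘ φ, fun i => (q (φ i)).1, l ∘ φ, fun i => (q (φ i)).2.2, l₀,
      fun i => ((hA _ _ _).1 (hW (φ i)).1).1, fun i => (hl (φ i)).1, fun i => (hW (φ i)).2.1,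
      fun i => (hW (φ i)).2.2, h1.comp hφ.tendsto_atTop, hlφ, hpos, ?_,
      h3.comp hφ.tendsto_atTop⟩
    have h4 : Tendsto (fun i => -((l (φ i))⁻¹ • (q (φ i)).1)) atTop (𝓝 (-(l₀⁻¹ • z))) :=
      ((hlφ.inv₀ hpos.ne').smul (h1.comp hφ.tendsto_atTop)).neg
    have h5 : Tendsto (fun i => (q (φ i)).2.1) atTop (𝓝 z') := h2.comp hφ.tendsto_atTop
    have h6 : (fun i => (q (φ i)).2.1) = fun i => -((l (φ i))⁻¹ • (q (φ i)).1) := by
      funext i
      exact (hl (φ i)).2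
    rw [h6] at h5
    exact tendsto_nhds_unique h5 h4
  refine ⟨A, ?_, ?_, ?_, ?_, ?_, ?_, ?_⟩
  · intro W hRW hW
    obtain ⟨x, l, hr⟩ := hSec W hW
    exact ⟨x, -(l⁻¹ • x), hRW, hW, l, hr, rfl⟩
  · intro W z z' h
    exact ⟨h.1, h.2.1⟩
  · rintro W z z' ⟨_, _, l, hr, h⟩
    have h' : z' = -(l⁻¹ • z) := h
    exact ⟨hr.1, h' ▸ W.neg_mem (W.smul_mem _ hr.1)⟩
  · rintro W z z' ⟨_, _, l, hr, h⟩
    have h' : z' = -(l⁻¹ • z) := h
    exact ⟨hr.seesK hK hL, h' ▸ hr.seesL hK hL⟩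
  · rintro W z z' ⟨_, _, l, hr, h⟩
    exact ⟨l⁻¹, inv_pos.2 hr.2.1, h⟩
  · intro z z' p' hcl
    obtain ⟨W, x, l, q, l₀, hRW, hr, hqD, hqW, hx, hl, hl0, hz', hq⟩ := hseq K z z' p' hcl
    have hz : z ≠ 0 := by
      rintro rfl
      have h1 : ∀ i, x i + l i • (s • f) ∈ K := fun i =>
        (hr i).mem_K ((W i).smul_mem _ (hRW i hfR)) hsf
      have h2 := hK.compact.isClosed.mem_of_tendsto (hx.add (hl.smul_const (s • f)))
        (Eventually.of_forall h1)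
      rw [zero_add, smul_smul] at h2
      exact hfK ⟨hf0, l₀ * s, by positivity, h2⟩
    refine ⟨hz, ?_, ?_⟩
    · rw [hz', neg_ne_zero]
      exact smul_ne_zero (inv_ne_zero hl0.ne') hz
    · rintro τ hτ rfl
      exact lemA hK hL hf hfK hr (fun i => hRW i hfR) hx hz hl hl0 hqD hqW hτ hq
  · rintro ⟨g, hgR, hgK, hgL⟩ z z' p' hcl τ hτ rfl
    obtain ⟨W, x, l, q, l₀, hRW, hr, hqD, hqW, hx, hl, hl0, hz', hq⟩ := hseq L z z' _ hcl
    have hz : z ≠ 0 := by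
      rintro rfl
      have h1 : ∀ i, x i + l i • (s • f) ∈ K := fun i =>
        (hr i).mem_K ((W i).smul_mem _ (hRW i hfR)) hsf
      have h2 := hK.compact.isClosed.mem_of_tendsto (hx.add (hl.smul_const (s • f)))
        (Eventually.of_forall h1)
      rw [zero_add, smul_smul] at h2
      exact hfK ⟨hf0, l₀ * s, by positivity, h2⟩
    have hli := hl.inv₀ hl0.ne'
    refine lemA hL hK hgK hgL (fun i => (hr i).symm) (fun i => hRW i hgR) ?_ ?_ hli
      (inv_pos.2 hl0) hqD hqW hτ (z := z') hq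
    · rw [hz']; exact (hli.smul hx).neg
    · rw [hz', neg_ne_zero]
      exact smul_ne_zero (inv_ne_zero hl0.ne') hz

end Pool.Agent.H64.SW
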