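import Pool.Agent.H64.SW.Basic

/-!
# INVS: the descent step (MP_bd4439_gt, walls)
-/

namespace Pool.Agent.H64.SW

open Set Filter Topology Module
open scoped RealInnerProductSpace

variable {E : Type*} [NormedAddCommGroup E] [InnerProductSpace ℝ E]

/-- Data of the descent step at `U`. -/
def GoodU (A : Set (Submodule ℝ E × E × E)) (U : Submodule ℝ E) (z0 z0' z1 z1' : E) : Prop :=
  ∃ W : Submodule ℝ E, U ≤ W ∧ (W, z0, z0') ∈ A ∧ z1 ∈ W ∧ z1' ∈ W ∧
    ∃ (Wm : ℕ → Submodule ℝ E) (zm zm' : ℕ → E), (∀ m, U ≤ Wm m) ∧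
      (∀ m, (Wm m, zm m, zm' m) ∈ A) ∧ Tendsto zm atTop (𝓝 z1) ∧ Tendsto zm' atTop (𝓝 z1')

/-- The set of the closure conditions. -/
def NN (A : Set (Submodule ℝ E × E × E)) (D : Set E) : Set (E × E × E) :=
  {q : E × E × E | ∃ W, (W, q.1, q.2.1) ∈ A ∧ q.2.2 ∈ D ∧ q.2.2 ∈ W}

theorem anti_closed {K L : Set E} {R : Submodule ℝ E} {j : ℕ}
    {A : Set (Submodule ℝ E × E × E)} (h : Inv K L R j A) {D : Set E} {z z' p : E}
    (hq : (z, z', p) ∈ closure (NN A D)) : ‖z‖ • z' = -(‖z'‖ • z) := by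
  have hcl : IsClosed {q : E × E × E | ‖q.1‖ • q.2.1 = -(‖q.2.1‖ • q.1)} := by
    apply isClosed_eq
    · fun_prop
    · fun_prop
  have hsub : NN A D ⊆ {q : E × E × E | ‖q.1‖ • q.2.1 = -(‖q.2.1‖ • q.1)} := by
    rintro ⟨a, b, c⟩ ⟨W, hW, -, -⟩
    obtain ⟨τ, hτ, hb⟩ := h.anti W a b hW
    have hb' : b = -(τ • a) := hb
    change ‖a‖ • b = -(‖b‖ • a)
    rw [hb', norm_neg, norm_smul, Real.norm_eq_abs, abs_of_pos hτ, smul_neg, smul_smul,
      mul_comm]
  exact (closure_minimal hsub hcl) hq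

theorem closure_zero {K L : Set E} (hK0 : (0 : E) ∈ K) {A : Set (Submodule ℝ E × E × E)}
    {z z' p : E} (hq : (z, z', p) ∈ closure (NN A L)) : (z, z', (0 : E)) ∈ closure (NN A K) := by
  have hf : Continuous (fun q : E × E × E => (q.1, q.2.1, (0 : E))) := by fun_prop
  have := map_mem_closure hf hq (t := NN A K) (by
    rintro ⟨a, b, c⟩ ⟨W, hW, -, -⟩
    exact ⟨W, hW, hK0, W.zero_mem⟩)
  exact this

theorem ne_of_closure {K L : Set E} {R : Submodule ℝ E} {j : ℕ}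
    {A : Set (Submodule ℝ E × E × E)} (h : Inv K L R j A) {z z' p : E}
    (hq : (z, z', p) ∈ closure (NN A K)) : z ≠ 0 ∧ z' ≠ 0 ∧ (∀ τ : ℝ, 0 < τ → p ≠ -(τ • z)) ∧
      ∃ c : ℝ, 0 < c ∧ z' = -(c • z) := by
  obtain ⟨h1, h2, h3⟩ := h.nK z z' p hq
  refine ⟨h1, h2, h3, ‖z'‖ / ‖z‖, div_pos (norm_pos_iff.2 h2) (norm_pos_iff.2 h1), ?_⟩
  have h4 := anti_closed h hq
  have hz : ‖z‖ ≠ 0 := norm_ne_zero_iff.2 h1
  have h5 : z' = ‖z‖⁻¹ • (‖z‖ • z') := by rw [smul_smul, inv_mul_cancel₀ hz, one_smul]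
  rw [h5, h4, smul_neg, smul_smul]
  congr 2
  rw [div_eq_inv_mul]

theorem good_K {K L : Set E} (hK : StarB K) {R : Submodule ℝ E} {j : ℕ}
    {A : Set (Submodule ℝ E × E × E)} (h : Inv K L R j A) {U : Submodule ℝ E}
    {z0 z0' z1 z1' p : E} (hg : GoodU A U z0 z0' z1 z1') (hpK : p ∈ K) (hpU : p ∈ U)
    {a b : ℝ} (ha : 0 ≤ a) (hb : 0 ≤ b) (hab : a + b ≤ 1) :
    a • z1 + b • p ∈ K ∧ (z0, z0', a • z1 + b • p) ∈ NN A K ∧ (z1, z1', p) ∈ closure (NN A K) := by
  obtain ⟨W, hUW, hW, hz1, hz1', Wm, zm, zm', hUm, hm, ht, ht'⟩ := hg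
  have h1 : a • z1 + b • p ∈ K :=
    hK.compact.isClosed.mem_of_tendsto ((ht.const_smul a).add_const (b • p))
      (Eventually.of_forall fun m =>
        (h.sees _ _ _ (hm m)).1 p hpK (hUm m hpU) a b ha hb hab)
  refine ⟨h1, ⟨W, hW, h1, W.add_mem (W.smul_mem _ hz1) (W.smul_mem _ (hUW hpU))⟩, ?_⟩
  apply mem_closure_of_tendsto (b := atTop) (f := fun m => (zm m, zm' m, p))
  · exact ht.prodMk_nhds (ht'.prodMk_nhds tendsto_const_nhds)
  · exact Eventually.of_forall fun m => ⟨Wm m, hm m, hpK, hUm m hpU⟩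

theorem good_L {K L : Set E} (hL : StarB L) {R : Submodule ℝ E} {j : ℕ}
    {A : Set (Submodule ℝ E × E × E)} (h : Inv K L R j A) {U : Submodule ℝ E}
    {z0 z0' z1 z1' p : E} (hg : GoodU A U z0 z0' z1 z1') (hpK : p ∈ L) (hpU : p ∈ U)
    {a b : ℝ} (ha : 0 ≤ a) (hb : 0 ≤ b) (hab : a + b ≤ 1) :
    a • z1' + b • p ∈ L ∧ (z0, z0', a • z1' + b • p) ∈ NN A L ∧
      (z1, z1', p) ∈ closure (NN A L) := by
  obtain ⟨W, hUW, hW, hz1, hz1', Wm, zm, zm', hUm, hm, ht, ht'⟩ := hg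
  have h1 : a • z1' + b • p ∈ L :=
    hL.compact.isClosed.mem_of_tendsto ((ht'.const_smul a).add_const (b • p))
      (Eventually.of_forall fun m =>
        (h.sees _ _ _ (hm m)).2 p hpK (hUm m hpU) a b ha hb hab)
  refine ⟨h1, ⟨W, hW, h1, W.add_mem (W.smul_mem _ hz1') (W.smul_mem _ (hUW hpU))⟩, ?_⟩
  apply mem_closure_of_tendsto (b := atTop) (f := fun m => (zm m, zm' m, p))
  · exact ht.prodMk_nhds (ht'.prodMk_nhds tendsto_const_nhds)
  · exact Eventually.of_forall fun m => ⟨Wm m, hm m, hpK, hUm m hpU⟩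

/-- The combination `α z0 + (1-α) z1` inherits the closure conditions. -/
theorem comb_core {z0 z1 p : E} (h0 : z0 ≠ 0) (h1 : z1 ≠ 0)
    (hh0 : ∀ a b : ℝ, 0 ≤ a → 0 ≤ b → a + b ≤ 1 → ∀ τ : ℝ, 0 < τ → a • z1 + b • p ≠ -(τ • z0))
    (hh1 : ∀ τ : ℝ, 0 < τ → p ≠ -(τ • z1)) {α : ℝ} (hα0 : 0 ≤ α) (hα1 : α ≤ 1) :
    α • z0 + (1 - α) • z1 ≠ 0 ∧ ∀ τ : ℝ, 0 < τ → p ≠ -(τ • (α • z0 + (1 - α) • z1)) := by
  constructor
  · intro h
    rcases eq_or_lt_of_le hα0 with h2 | h2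
    · rw [← h2] at h; simp at h; exact h1 h
    · rcases eq_or_lt_of_le hα1 with h3 | h3
      · rw [h3] at h; simp at h; exact h0 h
      · apply hh0 1 0 zero_le_one le_rfl (by norm_num) (α / (1 - α)) (div_pos h2 (by linarith))
        have h4 : (1 - α) • z1 = -(α • z0) := eq_neg_of_add_eq_zero_right h
        have h5 : z1 = (1 - α)⁻¹ • ((1 - α) • z1) := by
          rw [smul_smul, inv_mul_cancel₀ (by linarith), one_smul]
        rw [one_smul, zero_smul, add_zero]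
        rw [h5, h4, smul_neg, smul_smul]
        congr 2
        rw [div_eq_inv_mul]
  · intro τ hτ h
    rcases eq_or_lt_of_le hα0 with h2 | h2
    · apply hh1 τ hτ
      rw [h, ← h2]; simp
    · have hN : 0 < 1 + τ * (1 - α) := by nlinarith
      set N := 1 + τ * (1 - α) with hNd
      apply hh0 (τ * (1 - α) / N) (1 / N) (div_nonneg (mul_nonneg hτ.le (by linarith)) hN.le)
        (by positivity) (by rw [← add_div, div_le_one hN]; linarith) (τ * α / N) (by positivity)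
      rw [h]
      have e1 : (1 / N) • -(τ • (α • z0 + (1 - α) • z1)) =
          -((τ * α / N) • z0) - (τ * (1 - α) / N) • z1 := by
        rw [smul_neg, smul_smul, smul_add, smul_smul, smul_smul, neg_add, sub_eq_add_neg]
        congr 3 <;> ring
      rw [e1]
      abel

theorem finrank_sup_span {U : Submodule ℝ E} [FiniteDimensional ℝ E] {v : E} (hv : v ∉ U) :
    finrank ℝ ↥(U ⊔ Submodule.span ℝ {v}) = finrank ℝ U + 1 := by
  have hv0 : v ≠ 0 := fun h => hv (h ▸ U.zero_mem)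
  have hdisj : U ⊓ Submodule.span ℝ {v} = ⊥ := by
    rw [eq_bot_iff]
    intro w hw
    obtain ⟨hw1, hw2⟩ := Submodule.mem_inf.1 hw
    obtain ⟨c, rfl⟩ := Submodule.mem_span_singleton.1 hw2
    by_cases hc : c = 0
    · simp [hc]
    · exfalso
      apply hv
      have := U.smul_mem c⁻¹ hw1
      rwa [smul_smul, inv_mul_cancel₀ hc, one_smul] at this
  have := Submodule.finrank_sup_add_finrank_inf_eq U (Submodule.span ℝ {v})
  rw [hdisj, finrank_bot, finrank_span_singleton hv0] at this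
  omega

theorem sub_inner_mem {U : Submodule ℝ E} {v z : E} (hv : v ∈ Uᗮ) (hv1 : ‖v‖ = 1)
    (hz : z ∈ U ⊔ Submodule.span ℝ {v}) : z - ⟪v, z⟫ • v ∈ U := by
  obtain ⟨u, hu, w, hw, rfl⟩ := Submodule.mem_sup.1 hz
  obtain ⟨c, rfl⟩ := Submodule.mem_span_singleton.1 hw
  have h1 : ⟪v, u⟫ = 0 := by
    rw [real_inner_comm]
    exact (Submodule.mem_orthogonal U v).1 hv u hu
  rw [inner_add_right, h1, inner_smul_right, real_inner_self_eq_norm_sq, hv1]
  simpa using hu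

/-- Existence of the transition. -/
theorem exists_good [FiniteDimensional ℝ E] {K L : Set E} (hK : StarB K) (hL : StarB L)
    {R : Submodule ℝ E} {j : ℕ} {A : Set (Submodule ℝ E × E × E)} (h : Inv K L R (j + 1) A)
    (hdim : j + 2 ≤ finrank ℝ E) {U : Submodule ℝ E} (hRU : R ≤ U) (hU : finrank ℝ U = j) :
    ∃ z0 z0' z1 z1' v : E, GoodU A U z0 z0' z1 z1' ∧ v ∈ Uᗮ ∧ ‖v‖ = 1 ∧
      z0 ∈ U ⊔ Submodule.span ℝ {v} ∧ z1 ∈ U ⊔ Submodule.span ℝ {v} ∧
      ⟪v, z0⟫ ≤ 0 ∧ 0 ≤ ⟪v, z1⟫ := by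
  classical
  -- the sphere of `Uᗮ`
  let Wv : E → Submodule ℝ E := fun v => U ⊔ Submodule.span ℝ {v}
  have hWneg : ∀ v, Wv (-v) = Wv v := by
    intro v
    simp only [Wv]
    rw [← Set.neg_singleton, Submodule.span_neg]
  have hrank : 1 < Module.rank ℝ Uᗮ := by
    rw [← finrank_eq_rank]
    have := U.finrank_add_finrank_orthogonal
    have h2 : 1 < finrank ℝ Uᗮ := by omega
    exact_mod_cast h2
  have hcon := isPreconnected_sphere hrank (0 : Uᗮ) 1
  let Vp : Set Uᗮ := {v | ‖v‖ = 1 ∧ ∃ z z', (Wv v, z, z') ∈ A ∧ 0 ≤ ⟪(v : E), z⟫}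
  let Vm : Set Uᗮ := {v | ‖v‖ = 1 ∧ ∃ z z', (Wv v, z, z') ∈ A ∧ ⟪(v : E), z⟫ ≤ 0}
  have hneg : ∀ v : Uᗮ, v ∈ Vp → -v ∈ Vm := by
    rintro v ⟨h1, z, z', h2, h3⟩
    refine ⟨by rw [norm_neg]; exact h1, z, z', ?_, ?_⟩
    · have : Wv ((-v : Uᗮ) : E) = Wv v := by
        rw [Submodule.coe_neg, hWneg]
      rw [this]; exact h2
    · rw [Submodule.coe_neg, inner_neg_left]; linarith
  have hneg' : ∀ v : Uᗮ, v ∈ Vm → -v ∈ Vp := by
    rintro v ⟨h1, z, z', h2, h3⟩
    refine ⟨by rw [norm_neg]; exact h1, z, z', ?_, ?_⟩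
    · have : Wv ((-v : Uᗮ) : E) = Wv v := by
        rw [Submodule.coe_neg, hWneg]
      rw [this]; exact h2
    · rw [Submodule.coe_neg, inner_neg_left]; linarith
  have hfr : ∀ v : Uᗮ, ‖v‖ = 1 → finrank ℝ (Wv v) = j + 1 := by
    intro v hv
    have hvU : (v : E) ∉ U := by
      intro hvU
      have h0 : ⟪(v : E), (v : E)⟫ = 0 := (Submodule.mem_orthogonal U _).1 v.2 v hvU
      rw [real_inner_self_eq_norm_sq] at h0
      have : ‖(v : E)‖ = 1 := hv
      rw [this] at h0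
      norm_num at h0
    rw [← hU]
    exact finrank_sup_span hvU
  have hcov : ∀ v : Uᗮ, ‖v‖ = 1 → v ∈ Vp ∨ v ∈ Vm := by
    intro v hv
    obtain ⟨z, z', hz⟩ := h.ex (Wv v) (hRU.trans le_sup_left) (hfr v hv)
    rcases le_total 0 ⟪(v : E), z⟫ with h1 | h1
    · exact Or.inl ⟨hv, z, z', hz, h1⟩
    · exact Or.inr ⟨hv, z, z', hz, h1⟩
  -- transition
  have hnt : Nontrivial Uᗮ := by
    apply Module.nontrivial_of_finrank_pos (R := ℝ)
    have := U.finrank_add_finrank_orthogonal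
    omega
  obtain ⟨v₀, hv₀⟩ := exists_norm_eq Uᗮ (zero_le_one (α := ℝ))
  have hnep : Vp.Nonempty := by
    rcases hcov v₀ hv₀ with h1 | h1
    · exact ⟨v₀, h1⟩
    · exact ⟨-v₀, hneg' _ h1⟩
  obtain ⟨vp, hvp⟩ := hnep
  have hvm := hneg _ hvp
  obtain ⟨v, hvs, hv1, hv2⟩ := (isPreconnected_closed_iff.1 hcon) (closure Vp) (closure Vm)
    isClosed_closure isClosed_closure
    (by
      intro v hv
      rw [mem_sphere_zero_iff_norm] at hv
      rcases hcov v hv with h1 | h1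
      · exact Or.inl (subset_closure h1)
      · exact Or.inr (subset_closure h1))
    ⟨vp, by rw [mem_sphere_zero_iff_norm]; exact hvp.1, subset_closure hvp⟩
    ⟨-vp, by rw [mem_sphere_zero_iff_norm]; exact hvm.1, subset_closure hvm⟩
  rw [mem_sphere_zero_iff_norm] at hvs
  obtain ⟨v, hvs, hvm, hvp⟩ : ∃ v : Uᗮ, ‖v‖ = 1 ∧ v ∈ Vm ∧ v ∈ closure Vp := by
    rcases hcov v hvs with h1 | h1
    · refine ⟨-v, by rw [norm_neg]; exact hvs, hneg _ h1, ?_⟩
      exact map_mem_closure continuous_neg hv2 hneg'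
    · exact ⟨v, hvs, h1, hv1⟩
  clear hv1 hv2
  obtain ⟨-, z0, z0', hz0, hin0⟩ := hvm
  rw [mem_closure_iff_seq_limit] at hvp
  obtain ⟨vm, hvm, hvt⟩ := hvp
  choose hvm1 zm zm' hzm hinm using hvm
  -- compactness
  obtain ⟨⟨z1, z1'⟩, hz1, φ, hφ, hlim⟩ := (hK.compact.prod hL.compact).tendsto_subseq
    (x := fun m => (zm m, zm' m))
    (fun m => ⟨(h.sees _ _ _ (hzm m)).1.mem hK.zero, (h.sees _ _ _ (hzm m)).2.mem hL.zero⟩)
  have hl1 : Tendsto (fun m => zm (φ m)) atTop (𝓝 z1) := (continuous_fst.tendsto _).comp hlim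
  have hl2 : Tendsto (fun m => zm' (φ m)) atTop (𝓝 z1') := (continuous_snd.tendsto _).comp hlim
  have hvt' : Tendsto (fun m => ((vm (φ m) : Uᗮ) : E)) atTop (𝓝 (v : E)) :=
    (continuous_subtype_val.tendsto _).comp (hvt.comp hφ.tendsto_atTop)
  have hin1 : 0 ≤ ⟪(v : E), z1⟫ :=
    ge_of_tendsto' (hvt'.inner hl1) (fun m => hinm (φ m))
  have hW1 : z1 ∈ Wv v := by
    have h1 : z1 - ⟪(v : E), z1⟫ • (v : E) ∈ U := by
      have hcl : IsClosed (U : Set E) := U.closed_of_finiteDimensional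
      refine hcl.mem_of_tendsto (hl1.sub ((hvt'.inner hl1).smul hvt')) ?_
      exact Eventually.of_forall fun m => sub_inner_mem (vm (φ m)).2 (hvm1 (φ m))
        (h.mem _ _ _ (hzm (φ m))).1
    have h2 : z1 = (z1 - ⟪(v : E), z1⟫ • (v : E)) + ⟪(v : E), z1⟫ • (v : E) := by abel
    rw [h2]
    exact Submodule.add_mem_sup h1 (Submodule.smul_mem _ _ (Submodule.mem_span_singleton_self _))
  have hcl1 : (z1, z1', (0 : E)) ∈ closure (NN A K) := by
    apply mem_closure_of_tendsto (b := atTop) (f := fun m => (zm (φ m), zm' (φ m), (0 : E)))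
    · exact hl1.prodMk_nhds (hl2.prodMk_nhds tendsto_const_nhds)
    · exact Eventually.of_forall fun m => ⟨_, hzm (φ m), hK.zero, Submodule.zero_mem _⟩
  obtain ⟨-, -, -, c, hc, hz1'⟩ := ne_of_closure h hcl1
  refine ⟨z0, z0', z1, z1', v, ⟨Wv v, le_sup_left, hz0, hW1, ?_, fun m => Wv (vm (φ m)),
    fun m => zm (φ m), fun m => zm' (φ m), fun m => le_sup_left, fun m => hzm (φ m), hl1, hl2⟩,
    v.2, hvs, (h.mem _ _ _ hz0).1, hW1, hin0, hin1⟩
  rw [hz1']
  exact (Wv v).neg_mem ((Wv v).smul_mem _ hW1)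

theorem invs : T_INVS := by
  intro E _ _ _ K L hK hL R j A h hRj hdim
  -- the new set
  let A' : Set (Submodule ℝ E × E × E) := {a | R ≤ a.1 ∧ finrank ℝ a.1 = j ∧ a.2.1 ∈ a.1 ∧
    a.2.2 ∈ a.1 ∧ (∃ τ : ℝ, 0 < τ ∧ a.2.2 = -(τ • a.2.1)) ∧
    ∃ (α α' : ℝ) (z0 z0' z1 z1' : E), (0 ≤ α ∧ α ≤ 1) ∧ (0 ≤ α' ∧ α' ≤ 1) ∧
      GoodU A a.1 z0 z0' z1 z1' ∧ a.2.1 = α • z0 + (1 - α) • z1 ∧
      a.2.2 = α' • z0' + (1 - α') • z1'}
  -- limits
  have hlim : ∀ (D : Set E) (sel : E × E → E), Continuous sel →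
      (∀ U z0 z0' z1 z1', GoodU A U z0 z0' z1 z1' → ∀ p ∈ D, p ∈ U → ∀ a b : ℝ, 0 ≤ a → 0 ≤ b →
        a + b ≤ 1 → (z0, z0', a • sel (z1, z1') + b • p) ∈ NN A D ∧
          (z1, z1', p) ∈ closure (NN A D)) →
      ∀ z z' p, (z, z', p) ∈ closure (NN A' D) →
      ∃ (α α' : ℝ) (z0 z0' z1 z1' : E), (0 ≤ α ∧ α ≤ 1) ∧ (0 ≤ α' ∧ α' ≤ 1) ∧
        z = α • z0 + (1 - α) • z1 ∧ z' = α' • z0' + (1 - α') • z1' ∧
        (∀ a b : ℝ, 0 ≤ a → 0 ≤ b → a + b ≤ 1 →
          (z0, z0', a • sel (z1, z1') + b • p) ∈ closure (NN A D)) ∧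
        (z1, z1', p) ∈ closure (NN A D) := by
    intro D sel hsel hD z z' p hq
    rw [mem_closure_iff_seq_limit] at hq
    obtain ⟨q, hq, hqt⟩ := hq
    choose U hU hpD hpU using hq
    choose hRU hfr hmem hmem' hanti α α' z0 z0' z1 z1' hα hα' hg he he' using hU
    have hz0 : ∀ i, z0 i ∈ K ∧ z0' i ∈ L ∧ z1 i ∈ K ∧ z1' i ∈ L := by
      intro i
      have h1 := good_K hK h (hg i) hK.zero (Submodule.zero_mem _) zero_le_one le_rfl (by norm_num)
      have h2 := good_L hL h (hg i) hL.zero (Submodule.zero_mem _) zero_le_one le_rfl (by norm_num)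
      obtain ⟨W, -, hW, -⟩ := hg i
      refine ⟨(h.sees _ _ _ hW).1.mem hK.zero, (h.sees _ _ _ hW).2.mem hL.zero, ?_, ?_⟩
      · have := h1.1; rwa [one_smul, smul_zero, add_zero] at this
      · have := h2.1; rwa [one_smul, smul_zero, add_zero] at this
    have hcomp := (isCompact_Icc (a := (0 : ℝ)) (b := 1)).prod
      ((isCompact_Icc (a := (0 : ℝ)) (b := 1)).prod (hK.compact.prod (hL.compact.prod
        (hK.compact.prod hL.compact))))
    obtain ⟨⟨β, β', y0, y0', y1, y1'⟩, hy, φ, hφ, hlim⟩ := hcomp.tendsto_subseq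
      (x := fun i => (α i, α' i, z0 i, z0' i, z1 i, z1' i))
      (fun i => ⟨⟨(hα i).1, (hα i).2⟩, ⟨(hα' i).1, (hα' i).2⟩, (hz0 i).1, (hz0 i).2.1,
        (hz0 i).2.2.1, (hz0 i).2.2.2⟩)
    have l1 : Tendsto (fun i => α (φ i)) atTop (𝓝 β) := (continuous_fst.tendsto _).comp hlim
    have l2' := (continuous_snd.tendsto _).comp hlim
    have l2 : Tendsto (fun i => α' (φ i)) atTop (𝓝 β') := (continuous_fst.tendsto _).comp l2'
    have l3' := (continuous_snd.tendsto _).comp l2'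
    have l3 : Tendsto (fun i => z0 (φ i)) atTop (𝓝 y0) := (continuous_fst.tendsto _).comp l3'
    have l4' := (continuous_snd.tendsto _).comp l3'
    have l4 : Tendsto (fun i => z0' (φ i)) atTop (𝓝 y0') := (continuous_fst.tendsto _).comp l4'
    have l5' := (continuous_snd.tendsto _).comp l4'
    have l5 : Tendsto (fun i => z1 (φ i)) atTop (𝓝 y1) := (continuous_fst.tendsto _).comp l5'
    have l6 : Tendsto (fun i => z1' (φ i)) atTop (𝓝 y1') := (continuous_snd.tendsto _).comp l5'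
    have q1 : Tendsto (fun i => (q (φ i)).1) atTop (𝓝 z) :=
      ((continuous_fst.tendsto _).comp hqt).comp hφ.tendsto_atTop
    have q2 : Tendsto (fun i => (q (φ i)).2.1) atTop (𝓝 z') :=
      (((continuous_fst.comp continuous_snd).tendsto _).comp hqt).comp hφ.tendsto_atTop
    have q3 : Tendsto (fun i => (q (φ i)).2.2) atTop (𝓝 p) :=
      (((continuous_snd.comp continuous_snd).tendsto _).comp hqt).comp hφ.tendsto_atTop
    refine ⟨β, β', y0, y0', y1, y1', ⟨hy.1.1, hy.1.2⟩, ⟨hy.2.1.1, hy.2.1.2⟩, ?_, ?_, ?_, ?_⟩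
    · have h1 := (l1.smul l3).add ((l1.const_sub 1).smul l5)
      refine tendsto_nhds_unique q1 (h1.congr fun i => ?_)
      exact (he (φ i)).symm
    · have h1 := (l2.smul l4).add ((l2.const_sub 1).smul l6)
      refine tendsto_nhds_unique q2 (h1.congr fun i => ?_)
      exact (he' (φ i)).symm
    · intro a b ha hb hab
      refine mem_closure_of_tendsto (b := atTop)
        (f := fun i => (z0 (φ i), z0' (φ i), a • sel (z1 (φ i), z1' (φ i)) + b • (q (φ i)).2.2))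
        ?_ (Eventually.of_forall fun i => (hD _ _ _ _ _ (hg (φ i)) _ (hpD (φ i)) (hpU (φ i))
          a b ha hb hab).1)
      have hs : Tendsto (fun i => sel (z1 (φ i), z1' (φ i))) atTop (𝓝 (sel (y1, y1'))) :=
        (hsel.tendsto _).comp (l5.prodMk_nhds l6)
      exact l3.prodMk_nhds (l4.prodMk_nhds ((hs.const_smul a).add (q3.const_smul b)))
    · refine isClosed_closure.mem_of_tendsto (l5.prodMk_nhds (l6.prodMk_nhds q3))
        (Eventually.of_forall fun i => (hD _ _ _ _ _ (hg (φ i)) _ (hpD (φ i)) (hpU (φ i))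
          0 0 le_rfl le_rfl (by norm_num)).2)
  refine ⟨A', ?_, ?_, ?_, ?_, ?_, ?_, ?_⟩
  · -- existence
    intro U hRU hU
    obtain ⟨z0, z0', z1, z1', v, hg, hv, hv1, hW0, hW1, hin0, hin1⟩ :=
      exists_good hK hL h hdim hRU hU
    have h1 := good_K hK h hg hK.zero (Submodule.zero_mem _) zero_le_one le_rfl (by norm_num)
    obtain ⟨hz1, -, -, t1, ht1, hz1'⟩ := ne_of_closure h h1.2.2
    obtain ⟨hz0, -, -, t0, ht0, hz0'⟩ := ne_of_closure h (subset_closure h1.2.1)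
    rcases eq_or_lt_of_le hin0 with h0 | h0
    · -- `z0 ∈ U`
      have hzU : z0 ∈ U := by
        have := sub_inner_mem hv hv1 hW0
        rwa [h0, zero_smul, sub_zero] at this
      refine ⟨z0, z0', hRU, hU, hzU, ?_, ⟨t0, ht0, hz0'⟩, 1, 1, z0, z0', z1, z1',
        ⟨zero_le_one, le_rfl⟩, ⟨zero_le_one, le_rfl⟩, hg, by simp, by simp⟩
      change z0' ∈ U
      rw [hz0']
      exact U.neg_mem (U.smul_mem _ hzU)
    · set s0 : ℝ := -⟪v, z0⟫ with hs0
      set s1 : ℝ := ⟪v, z1⟫ with hs1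
      have hs0' : 0 < s0 := by rw [hs0]; linarith
      have hsum : 0 < s0 + s1 := by linarith
      have hden : 0 < t0 * s0 + t1 * s1 := by
        have := mul_pos ht0 hs0'
        have := mul_nonneg ht1.le hin1
        linarith
      set α : ℝ := s1 / (s0 + s1) with hα
      set α' : ℝ := t1 * s1 / (t0 * s0 + t1 * s1) with hα'
      have h1α : 1 - α = s0 / (s0 + s1) := by rw [hα]; field_simp; ring
      have h1α' : 1 - α' = t0 * s0 / (t0 * s0 + t1 * s1) := by rw [hα']; field_simp; ring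
      have hzU : α • z0 + (1 - α) • z1 ∈ U := by
        have hm : α • z0 + (1 - α) • z1 ∈ U ⊔ Submodule.span ℝ {v} :=
          Submodule.add_mem _ (Submodule.smul_mem _ _ hW0) (Submodule.smul_mem _ _ hW1)
        have h2 := sub_inner_mem hv hv1 hm
        have h3 : ⟪v, α • z0 + (1 - α) • z1⟫ = 0 := by
          rw [inner_add_right, inner_smul_right, inner_smul_right, ← hs1, h1α, hα]
          have : ⟪v, z0⟫ = -s0 := by rw [hs0]; ring
          rw [this]
          field_simp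
          ring
        rwa [h3, zero_smul, sub_zero] at h2
      have hz' : α' • z0' + (1 - α') • z1' =
          -((t0 * t1 * (s0 + s1) / (t0 * s0 + t1 * s1)) • (α • z0 + (1 - α) • z1)) := by
        rw [hz0', hz1', h1α, h1α', hα, hα', smul_add, smul_smul, smul_smul, smul_neg, smul_neg,
          smul_smul, smul_smul, neg_add]
        congr 3 <;> field_simp
      refine ⟨α • z0 + (1 - α) • z1, α' • z0' + (1 - α') • z1', hRU, hU, hzU, ?_,
        ⟨t0 * t1 * (s0 + s1) / (t0 * s0 + t1 * s1), by positivity, hz'⟩, α, α', z0, z0', z1, z1',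
        ⟨by positivity, by rw [hα, div_le_one hsum]; linarith⟩,
        ⟨by positivity, by rw [hα', div_le_one hden]; nlinarith [mul_pos ht0 hs0']⟩, hg, rfl, rfl⟩
      change α' • z0' + (1 - α') • z1' ∈ U
      rw [hz']
      exact U.neg_mem (U.smul_mem _ hzU)
  · intro W z z' hz
    exact ⟨hz.1, hz.2.1⟩
  · intro W z z' hz
    exact ⟨hz.2.2.1, hz.2.2.2.1⟩
  · -- sees
    rintro U z z' ⟨hRU, hfr, hm, hm', -, α, α', z0, z0', z1, z1', hα, hα', hg, he, he'⟩
    have he1 : z = α • z0 + (1 - α) • z1 := he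
    have he1' : z' = α' • z0' + (1 - α') • z1' := he'
    -- general statement
    have gen : ∀ (D : Set E) (c0 c1 : E) (W : Submodule ℝ E), Sees D W c0 → ∀ (β : ℝ), 0 ≤ β →
        β ≤ 1 → ∀ p : E, (∀ a b : ℝ, 0 ≤ a → 0 ≤ b → a + b ≤ 1 → a • c1 + b • p ∈ D) →
        (∀ a b : ℝ, a • c1 + b • p ∈ W) → ∀ a b : ℝ, 0 ≤ a → 0 ≤ b → a + b ≤ 1 →
        a • (β • c0 + (1 - β) • c1) + b • p ∈ D := by
      intro D c0 c1 W hs β hβ hβ1 p h1 h2 a b ha hb hab
      have haβ : a * β ≤ 1 := by nlinarith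
      rcases eq_or_lt_of_le haβ with h3 | h3
      · have ha1 : a = 1 := by nlinarith
        have hβ1' : β = 1 := by nlinarith
        have hb0 : b = 0 := by linarith
        subst ha1; subst hβ1'; subst hb0
        have h00 := h1 0 0 le_rfl le_rfl (by norm_num)
        simp only [zero_smul, add_zero] at h00
        have h4 := hs 0 h00 W.zero_mem 1 0 zero_le_one le_rfl (by norm_num)
        simpa using h4
      · have h4 : 0 < 1 - a * β := by linarith
        have h5 := h1 (a * (1 - β) / (1 - a * β)) (b / (1 - a * β))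
          (div_nonneg (mul_nonneg ha (by linarith)) h4.le) (div_nonneg hb h4.le)
          (by rw [← add_div, div_le_one h4]; nlinarith)
        have h6 := hs _ h5 (h2 _ _) (a * β) (1 - a * β) (mul_nonneg ha hβ) h4.le (by linarith)
        have e : (a * β) • c0 + (1 - a * β) • ((a * (1 - β) / (1 - a * β)) • c1 +
            (b / (1 - a * β)) • p) = a • (β • c0 + (1 - β) • c1) + b • p := by
          rw [smul_add (1 - a * β), smul_smul, smul_smul, smul_add a, smul_smul, smul_smul,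
            mul_div_cancel₀ _ h4.ne', mul_div_cancel₀ _ h4.ne', add_assoc]
        rwa [e] at h6
    obtain ⟨W, hUW, hW, hz1W, hz1W', -⟩ := id hg
    constructor
    · intro p hp hpU a b ha hb hab
      rw [he1]
      exact gen K z0 z1 W (h.sees _ _ _ hW).1 α hα.1 hα.2 p
        (fun a b ha hb hab => (good_K hK h hg hp hpU ha hb hab).1)
        (fun a b => W.add_mem (W.smul_mem _ hz1W) (W.smul_mem _ (hUW hpU))) a b ha hb hab
    · intro p hp hpU a b ha hb hab
      rw [he1']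
      exact gen L z0' z1' W (h.sees _ _ _ hW).2 α' hα'.1 hα'.2 p
        (fun a b ha hb hab => (good_L hL h hg hp hpU ha hb hab).1)
        (fun a b => W.add_mem (W.smul_mem _ hz1W') (W.smul_mem _ (hUW hpU))) a b ha hb hab
  · intro W z z' hz
    exact hz.2.2.2.2.1
  · -- nK
    intro z z' p hq
    obtain ⟨α, α', z0, z0', z1, z1', hα, hα', hz, hz', ha, hb⟩ := hlim K Prod.fst continuous_fst
      (fun U z0 z0' z1 z1' hg p hp hpU a b ha hb hab =>
        (good_K hK h hg hp hpU ha hb hab).2) z z' p hq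
    have hb' := ne_of_closure h hb
    have ha' := fun a b h1 h2 h3 => ne_of_closure h (ha a b h1 h2 h3)
    obtain ⟨hz0, hz0n, -, t0, ht0, hz0'⟩ := ha' 0 0 le_rfl le_rfl (by norm_num)
    obtain ⟨hz1, hz1n, hp1, t1, ht1, hz1'⟩ := hb'
    have hcore := comb_core hz0 hz1 (fun a b h1 h2 h3 => (ha' a b h1 h2 h3).2.2.1) hp1 hα.1 hα.2
    refine ⟨hz ▸ hcore.1, ?_, fun τ hτ => hz ▸ hcore.2 τ hτ⟩
    rw [hz']
    -- `z' ≠ 0`
    intro h0
    have h2 := (comb_core (z0 := z0') (z1 := z1') (p := 0) hz0n hz1n (α := α') ?_ ?_ hα'.1 hα'.2).1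
    · exact h2 h0
    · intro a b h1 h2 h3 τ hτ h4
      rw [smul_zero, add_zero, hz0', hz1'] at h4
      have h5 : (a * t1) • z1 = -((τ * t0) • z0) := by
        rw [smul_neg, smul_neg, smul_smul, smul_smul, neg_neg] at h4
        rw [← h4, neg_neg]
      rcases eq_or_lt_of_le h1 with h6 | h6
      · rw [← h6, zero_mul, zero_smul] at h5
        have h7 : (τ * t0) • z0 = 0 := by rw [← neg_eq_zero]; exact h5.symm
        exact hz0 ((smul_eq_zero.1 h7).resolve_left (by positivity))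
      · apply (ha' 1 0 zero_le_one le_rfl (by norm_num)).2.2.1 ((a * t1)⁻¹ * (τ * t0))
          (by positivity)
        rw [one_smul, zero_smul, add_zero]
        have h8 : z1 = (a * t1)⁻¹ • ((a * t1) • z1) := by
          rw [smul_smul, inv_mul_cancel₀ (by positivity), one_smul]
        change z1 = _
        rw [h8, h5, smul_neg, smul_smul, mul_assoc]
    · intro τ hτ h4
      have h7 : τ • z1' = 0 := by rw [← neg_eq_zero]; exact h4.symm
      exact hz1n ((smul_eq_zero.1 h7).resolve_left hτ.ne')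
  · -- nL
    intro hgex z z' p hq
    obtain ⟨α, α', z0, z0', z1, z1', hα, hα', hz, hz', ha, hb⟩ := hlim L Prod.snd continuous_snd
      (fun U z0 z0' z1 z1' hg p hp hpU a b ha hb hab =>
        (good_L hL h hg hp hpU ha hb hab).2) z z' p hq
    obtain ⟨-, hz0n, -⟩ := ne_of_closure h (closure_zero hK.zero
      (ha 0 0 le_rfl le_rfl (by norm_num)))
    obtain ⟨-, hz1n, -⟩ := ne_of_closure h (closure_zero hK.zero hb)
    have hcore := comb_core hz0n hz1n
      (fun a b h1 h2 h3 => h.nL hgex _ _ _ (ha a b h1 h2 h3)) (h.nL hgex _ _ _ hb) hα'.1 hα'.2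
    exact fun τ hτ => hz' ▸ hcore.2 τ hτ

end Pool.Agent.H64.SW
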