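import Pool.Agent.H64.SW.Defs

/-!
# Targets of the modules (MP_bd4439_gt, walls). Every target is a `Prop`; a module proves
`theorem xxx (h₁ : T_A) ... : T_XXX`.
-/

namespace Pool.Agent.H64.SW

open Set Filter Topology Module
open scoped RealInnerProductSpace

/-- LIMA/INVB: the invariant holds for `j = k` (needs the half-plane lemma in sequential form). -/
def T_INVB : Prop :=
  ∀ (E : Type) [NormedAddCommGroup E] [InnerProductSpace ℝ E] [FiniteDimensional ℝ E]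
    (K L : Set E) (k : ℕ), StarB K → StarB L → Sec K L k →
    ∀ (R : Submodule ℝ E) (f p : E), f ∈ R → f ∈ P L → f ∉ P K → p ∈ R → p ∈ P K →
    ∃ A, Inv K L R k A

/-- INVS: descent step. -/
def T_INVS : Prop :=
  ∀ (E : Type) [NormedAddCommGroup E] [InnerProductSpace ℝ E] [FiniteDimensional ℝ E]
    (K L : Set E), StarB K → StarB L →
    ∀ (R : Submodule ℝ E) (j : ℕ) (A : Set (Submodule ℝ E × E × E)), Inv K L R (j + 1) A →
    finrank ℝ R ≤ j → j + 2 ≤ finrank ℝ E → ∃ A', Inv K L R j A'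

/-- D2 (assembly of INVB, INVS). -/
def T_D2 : Prop :=
  ∀ (E : Type) [NormedAddCommGroup E] [InnerProductSpace ℝ E] [FiniteDimensional ℝ E]
    (K L : Set E) (k : ℕ), StarB K → StarB L → Sec K L k → 2 ≤ k → k + 1 ≤ finrank ℝ E → D2 K L

/-- CONE: `C` is convex. -/
def T_CONE : Prop :=
  ∀ (E : Type) [NormedAddCommGroup E] [InnerProductSpace ℝ E] [FiniteDimensional ℝ E]
    (K L : Set E), D2 K L → ∀ f ∈ C K L, ∀ g ∈ C K L, f + g ∈ C K L

/-- NWC: no walls seen from interior points of `C`. -/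
def T_NWC : Prop :=
  ∀ (E : Type) [NormedAddCommGroup E] [InnerProductSpace ℝ E] [FiniteDimensional ℝ E]
    (K L : Set E), D2 K L → ∀ f ∈ interior (C K L), NW K f

/-- EXT: a homothety relation off a proper subspace extends. -/
def T_EXT : Prop :=
  ∀ (E : Type) [NormedAddCommGroup E] [InnerProductSpace ℝ E] [FiniteDimensional ℝ E]
    (K L : Set E), IsClosed K → IsClosed L → closure (interior K) = K →
    closure (interior L) = L → ∀ (T : Submodule ℝ E) (x : E) (l : ℝ), T ≠ ⊤ → x ∈ T → 0 < l →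
    (∀ z, z ∉ T → (x + l • z ∈ K ↔ z ∈ L)) → Rel K L ⊤ x l

/-- SPAN: `C ≠ ∅` implies homothetic, or `C` has interior points. -/
def T_SPAN : Prop :=
  ∀ (E : Type) [NormedAddCommGroup E] [InnerProductSpace ℝ E] [FiniteDimensional ℝ E]
    (K L : Set E) (k : ℕ), StarB K → StarB L → Sec K L k → 2 ≤ k → k + 1 ≤ finrank ℝ E →
    (C K L).Nonempty → (∀ f ∈ C K L, ∀ g ∈ C K L, f + g ∈ C K L) →
    Hmt K L ∨ (interior (C K L)).Nonempty

/-- LW: walls of `L`. -/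
def T_LW : Prop :=
  ∀ (E : Type) [NormedAddCommGroup E] [InnerProductSpace ℝ E] [FiniteDimensional ℝ E]
    (K L : Set E) (k : ℕ), StarB K → StarB L → Sec K L k → 2 ≤ k → k + 1 ≤ finrank ℝ E →
    D2 K L → D2 L K → (interior (C K L)).Nonempty →
    Q L = ∅ ∨ Hmt K L ∨ ∃ f ∈ interior (C K L), -f ∈ interior (C L K)

/-- SC: convergence of spans. -/
def T_SC : Prop :=
  ∀ (E : Type) [NormedAddCommGroup E] [InnerProductSpace ℝ E] [FiniteDimensional ℝ E]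
    (m : ℕ) (bi : ℕ → Fin m → E) (b : Fin m → E), LinearIndependent ℝ b →
    (∀ a, Tendsto (fun i => bi i a) atTop (𝓝 (b a))) →
    SConv (fun i => Submodule.span ℝ (range (bi i))) (Submodule.span ℝ (range b))

/-- CL: closedness of the homothety relation when there are no walls. -/
def T_CL : Prop :=
  ∀ (E : Type) [NormedAddCommGroup E] [InnerProductSpace ℝ E] [FiniteDimensional ℝ E]
    (K L : Set E), StarB K → StarB L → ∀ (f : E), NW K f → NW L (-f) → f ≠ 0 →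
    ∀ (S : Submodule ℝ E) (Si : ℕ → Submodule ℝ E) (x : E) (xi : ℕ → E) (l : ℝ) (li : ℕ → ℝ),
    f ∈ S → (∀ i, Rel K L (Si i) (xi i) (li i)) →
    (∀ p ∈ S, ∃ pi : ℕ → E, (∀ i, pi i ∈ Si i) ∧ Tendsto pi atTop (𝓝 p)) →
    x ∈ S → 0 < l → Tendsto xi atTop (𝓝 x) → Tendsto li atTop (𝓝 l) → Rel K L S x l

/-- CC: continuity of the centre when there are no walls. -/
def T_CC : Prop :=
  ∀ (E : Type) [NormedAddCommGroup E] [InnerProductSpace ℝ E] [FiniteDimensional ℝ E]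
    (K L : Set E), StarB K → StarB L → ∀ f ∈ C K L, NW K f → NW L (-f) →
    ∀ (S : Submodule ℝ E) (Si : ℕ → Submodule ℝ E) (x : E) (xi : ℕ → E) (l : ℝ) (li : ℕ → ℝ)
    (fi : ℕ → E), f ∈ S → SConv Si S → (∀ i, fi i ∈ Si i) → Tendsto fi atTop (𝓝 f) →
    (∀ i, Rel K L (Si i) (xi i) (li i)) → Rel K L S x l →
    Tendsto xi atTop (𝓝 x) ∧ Tendsto li atTop (𝓝 l)

/-- TWO: planes of dimension `2 ≤ j ≤ k` through `f` have homothetic sections. -/
def T_TWO : Prop :=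
  ∀ (E : Type) [NormedAddCommGroup E] [InnerProductSpace ℝ E] [FiniteDimensional ℝ E]
    (K L : Set E) (k : ℕ), StarB K → StarB L → Sec K L k → 2 ≤ k → k + 1 ≤ finrank ℝ E →
    ∀ f ∈ C K L, NW K f → NW L (-f) → ∀ S : Submodule ℝ E, 2 ≤ finrank ℝ S → finrank ℝ S ≤ k →
    f ∈ S → ∃ (x : E) (l : ℝ), Rel K L S x l

/-- KAP: the function `kap`. -/
def T_KAP : Prop :=
  ∀ (E : Type) [NormedAddCommGroup E] [InnerProductSpace ℝ E] [FiniteDimensional ℝ E]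
    (K : Set E),
    (∀ f ∈ Q K, NW K f → ∀ v : E, v + kap K f v • f ∈ closure (Q K) ∧
      (∀ s : ℝ, s < kap K f v → v + s • f ∉ closure (Q K)) ∧
      (∀ s : ℝ, kap K f v < s → v + s • f ∈ interior (Q K))) ∧
    ContinuousOn (fun q : E × E => kap K q.1 q.2) ({f | f ∈ Q K ∧ NW K f} ×ˢ univ)

/-- DER: one-sided derivatives of `1 / rad L` along planes centred at `f`. -/
def T_DER : Prop :=
  ∀ (E : Type) [NormedAddCommGroup E] [InnerProductSpace ℝ E] [FiniteDimensional ℝ E]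
    (K L : Set E), StarB K → StarB L → ∀ f ∈ C K L, NW K f → NW L (-f) →
    ∀ v : E, LinearIndependent ℝ ![f, v] → ∀ c l : ℝ,
    Rel K L (Submodule.span ℝ {f, v}) (-(c • f)) l →
    (∀ s : ℝ, s < kap K f v →
      ∀ᶠ δ : ℝ in 𝓝[>] 0, (rad L (f + δ • v))⁻¹ ≤ (rad L f)⁻¹ * (1 - δ * s)) ∧
    (∀ s : ℝ, kap K f v < s →
      ∀ᶠ δ : ℝ in 𝓝[>] 0, (rad L f)⁻¹ * (1 - δ * s) ≤ (rad L (f + δ • v))⁻¹)

/-- CEN: centred planes in a 3-space `V`: existence and closedness. -/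
def T_CEN : Prop :=
  ∀ (E : Type) [NormedAddCommGroup E] [InnerProductSpace ℝ E] [FiniteDimensional ℝ E]
    (K L B : Set E), StarB K → StarB L → IsOpen B →
    (∀ f ∈ B, f ∈ C K L ∧ NW K f ∧ NW L (-f)) →
    (∀ f ∈ B, ∀ R : Submodule ℝ E, finrank ℝ R = 2 → f ∈ R → ∃ (x : E) (l : ℝ), Rel K L R x l) →
    ∀ (V : Submodule ℝ E) (f₀ : E), finrank ℝ V = 3 → f₀ ∈ V → f₀ ∈ B →
    (∀ y ∈ V, ⟪f₀, y⟫ = 0 → f₀ + y ∈ B → ∃ v ∈ V, ⟪f₀, v⟫ = 0 ∧ ‖v‖ = 1 ∧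
      ∃ c l : ℝ, Rel K L (Submodule.span ℝ {f₀ + y, v}) (-(c • (f₀ + y))) l) ∧
    (∀ (yi vi : ℕ → E) (y v : E), (∀ i, yi i ∈ V ∧ ⟪f₀, yi i⟫ = 0 ∧ f₀ + yi i ∈ B) →
      (∀ i, vi i ∈ V ∧ ⟪f₀, vi i⟫ = 0 ∧ ‖vi i‖ = 1) → Tendsto yi atTop (𝓝 y) →
      Tendsto vi atTop (𝓝 v) → f₀ + y ∈ B →
      (∀ i, ∃ c l : ℝ, Rel K L (Submodule.span ℝ {f₀ + yi i, vi i}) (-(c • (f₀ + yi i))) l) →
      ∃ c l : ℝ, Rel K L (Submodule.span ℝ {f₀ + y, v}) (-(c • (f₀ + y))) l)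

/-- GAP: infinitely many antipodal boundary directions in every 3-space meeting `B`. -/
def T_GAP : Prop :=
  ∀ (E : Type) [NormedAddCommGroup E] [InnerProductSpace ℝ E] [FiniteDimensional ℝ E]
    (K L B : Set E), StarB K → StarB L → IsOpen B →
    (∀ f ∈ B, f ∈ C K L ∧ NW K f ∧ NW L (-f)) →
    (∀ f ∈ B, ∀ R : Submodule ℝ E, finrank ℝ R = 2 → f ∈ R → ∃ (x : E) (l : ℝ), Rel K L R x l) →
    ∀ V : Submodule ℝ E, finrank ℝ V = 3 → (∃ f ∈ V, f ∈ B) → Inf K V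

/-- G1: geometry in dimension 3. -/
def T_G1 : Prop :=
  ∀ (E : Type) [NormedAddCommGroup E] [InnerProductSpace ℝ E] [FiniteDimensional ℝ E]
    (B : Set E), finrank ℝ E = 3 → IsOpen B → B.Nonempty → (∀ f ∈ B, ∀ g ∈ B, f + g ∈ B) →
    (∀ f ∈ B, ∀ c : ℝ, 0 < c → c • f ∈ B) → ∀ w w₁ w₂ : E, w ∉ closure B → -w ∉ closure B →
    LinearIndependent ℝ ![w₁, w₂] →
    (∀ f ∈ B, ∀ g ∈ B, ∀ s t : ℝ, f + s • w = g + t • w₁ → f + s • w ∈ closure B) →
    (∀ f ∈ B, ∀ g ∈ B, ∀ s t : ℝ, f + s • w = g + t • w₂ → f + s • w ∈ closure B) → False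

/-- A13: antipodal boundary directions lie in `± closure C`. -/
def T_A13 : Prop :=
  ∀ (E : Type) [NormedAddCommGroup E] [InnerProductSpace ℝ E] [FiniteDimensional ℝ E]
    (K L : Set E), StarB K → StarB L → 3 ≤ finrank ℝ E → D2 K L → D2 L K →
    (∀ f ∈ C K L, ∀ g ∈ C K L, f + g ∈ C K L) →
    (∀ f ∈ interior (C K L), NW K f) → (∀ f ∈ interior (C L K), NW L f) →
    ∀ B' : Set E, B'.Nonempty → B' ⊆ interior (C K L) →
    ((Q L).Nonempty → ∀ V : Submodule ℝ E, finrank ℝ V = 3 → (∃ f ∈ V, f ∈ B') → Inf L V) →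
    ∀ w ∈ G K, w ∈ closure (C K L) ∨ -w ∈ closure (C K L)

/-- B13: final contradiction in the case of different supports. -/
def T_B13 : Prop :=
  ∀ (E : Type) [NormedAddCommGroup E] [InnerProductSpace ℝ E] [FiniteDimensional ℝ E]
    (K B B' : Set E), 3 ≤ finrank ℝ E → IsOpen B → (∀ f ∈ B, ∀ g ∈ B, f + g ∈ B) →
    (∀ f ∈ B, ∀ c : ℝ, 0 < c → c • f ∈ B) → (∀ f ∈ B, NW K f) →
    (∀ w ∈ G K, w ∈ closure B ∨ -w ∈ closure B) → B' ⊆ B → B'.Nonempty →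
    (∀ V : Submodule ℝ E, finrank ℝ V = 3 → (∃ f ∈ V, f ∈ B') → Inf K V) →
    (∀ ν : E →ₗ[ℝ] ℝ, ν ≠ 0 → ∃ u, 0 < ν u ∧ u ∉ Q K) → False

/-- CASE1: assembly for different supports. -/
def T_CASE1 : Prop :=
  ∀ (E : Type) [NormedAddCommGroup E] [InnerProductSpace ℝ E] [FiniteDimensional ℝ E]
    (K L : Set E) (k : ℕ), StarB K → StarB L → Sec K L k → 2 ≤ k → k + 1 ≤ finrank ℝ E →
    (∀ ν : E →ₗ[ℝ] ℝ, ν ≠ 0 → ∃ u, 0 < ν u ∧ u ∉ Q K) →
    (∃ f ∈ P L, f ∉ P K) → Hmt K L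

/-- C2A: equal supports, sections by planes through `u` with `r(u) < r(-u)`, `r = rad L / rad K`. -/
def T_C2A : Prop :=
  ∀ (E : Type) [NormedAddCommGroup E] [InnerProductSpace ℝ E] [FiniteDimensional ℝ E]
    (K L : Set E) (k : ℕ), StarB K → StarB L → P K = P L → Sec K L k → 2 ≤ k →
    k + 1 ≤ finrank ℝ E → ∀ u ∈ P K, -u ∈ P K →
    rad L u * rad K (-u) < rad L (-u) * rad K u →
    ∀ S : Submodule ℝ E, 2 ≤ finrank ℝ S → finrank ℝ S ≤ k → u ∈ S →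
    ∃ (x : E) (l : ℝ), Rel K L S x l

/-- C2: equal supports different from the whole sphere. -/
def T_C2 : Prop :=
  ∀ (E : Type) [NormedAddCommGroup E] [InnerProductSpace ℝ E] [FiniteDimensional ℝ E]
    (K L : Set E) (k : ℕ), StarB K → StarB L → P K = P L → (Q K).Nonempty → Sec K L k →
    2 ≤ k → k + 1 ≤ finrank ℝ E → Hmt K L

/-- INT: the interior case (helper63 and others). -/
def T_INT : Prop :=
  ∀ (E : Type) [NormedAddCommGroup E] [InnerProductSpace ℝ E] [FiniteDimensional ℝ E]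
    (K L : Set E) (k : ℕ), StarB K → StarB L → Q K = ∅ → Q L = ∅ → Sec K L k →
    2 ≤ k → k + 1 ≤ finrank ℝ E → Hmt K L

/-- ALL: the full theorem. -/
def T_ALL : Prop :=
  ∀ (E : Type) [NormedAddCommGroup E] [InnerProductSpace ℝ E] [FiniteDimensional ℝ E]
    (K L : Set E) (k : ℕ), StarB K → StarB L → Sec K L k → 2 ≤ k → k + 1 ≤ finrank ℝ E → Hmt K L

end Pool.Agent.H64.SW
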